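import Pool.Agent.U746.AS.CF
import Pool.Agent.U746.AP.Fin2

/-! Quadratic polynomials at the elements of arbitrary subsets of regular sets, with the true constant. -/

set_option autoImplicit false

namespace Pool.Agent.U746.RR
open Finset Polynomial Filter Topology
open Pool.Agent.H373R2.T7
open Pool.Agent.U746.AS (cntS SS LL LL_mean SS_euler CF_close WW)
open Pool.Agent.U746.AP (Reg arb2 NP MP)
open Pool.Agent.W468.ConjF (CF SJ)

/-- the polynomial without the constant term -/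
noncomputable def G2 (a b : ℤ) : Fin 1 → ℤ[X] := fun _ => C a * X ^ 2 + C b * X + C 0

lemma G2_eval (a b : ℤ) (i : Fin 1) (n : ℤ) : (G2 a b i).eval n = a * n ^ 2 + b * n := by simp [G2]

lemma G2_deg (a b : ℤ) (ha : 0 < a) (i : Fin 1) : (G2 a b i).natDegree = 2 := Polynomial.natDegree_quadratic ha.ne'

lemma G2_lead (a b : ℤ) (ha : 0 < a) (i : Fin 1) : (G2 a b i).leadingCoeff = a := Polynomial.leadingCoeff_quadratic ha.ne'

lemma exp_small (v : ℝ) (h0 : 0 ≤ v) (h1 : v ≤ 1 / 2) : Real.exp v - 1 ≤ 2 * v := by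
  have h2 := Real.add_one_le_exp (-v)
  have h3 : Real.exp v * Real.exp (-v) = 1 := by rw [← Real.exp_add]; simp
  have h4 : 0 < Real.exp v := Real.exp_pos v
  have h5 : Real.exp v * (1 - v) ≤ 1 := by
    rw [← h3]; exact mul_le_mul_of_nonneg_left (by linarith) h4.le
  nlinarith

lemma Lam_eq (a b : ℤ) (ha : 0 < a) (x : ℕ) : Pool.Agent.U746.AS.Lam (G2 a b) x = 2 * Real.log x := by
  unfold Pool.Agent.U746.AS.Lam
  rw [Fin.prod_univ_one, G2_deg a b ha]
  norm_num

/-- the shift as a vector -/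
def v1 (c : ℕ) : Fin 1 → ℕ := fun _ => c

lemma vl_one (a b : ℤ) (c n : ℕ) (i : Fin 1) : vl (G2 a b) (fun _ => 1) (v1 c) i n = a * (n : ℤ) ^ 2 + b * n + c := by
  unfold vl v1
  rw [G2_eval]; ring

open Classical in
/-- few constant terms have too many elements of the regular set with values free of small prime factors -/
lemma sift_few (a b : ℤ) (w : ℕ) (hw : 1 ≤ w) : ∃ H0 : ℕ, ∀ H : ℕ, H0 ≤ H → ∀ (T : Set ℕ) (x : ℕ) (U : ℝ), 0 < U →
    (((Icc 1 H).filter (fun c : ℕ => U * cntS T x < (Vz w)⁻¹ * MP (G2 a b) (fun _ => 1) (v1 c) T w x)).card : ℝ) * U ≤ 2 * H := by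
  obtain ⟨N0, h0⟩ := LL_mean 1
  have hev : ∀ᶠ H : ℕ in atTop, (w : ℝ) ≤ Real.log H ^ 1 := by
    have h1 : Tendsto (fun H : ℕ => Real.log (H : ℝ)) atTop atTop := Real.tendsto_log_atTop.comp tendsto_natCast_atTop_atTop
    filter_upwards [h1.eventually_ge_atTop (w : ℝ)] with H hH
    rw [pow_one]; exact hH
  obtain ⟨N1, h1⟩ := eventually_atTop.1 hev
  refine ⟨max N0 N1, fun H hH T x U hU => ?_⟩
  have k0 := h0 H ((le_max_left _ _).trans hH) w hw (h1 H ((le_max_right _ _).trans hH))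
  rcases Nat.eq_zero_or_pos (cntS T x) with hc | hc
  · -- the set is empty
    have h2 : ∀ c : ℕ, MP (G2 a b) (fun _ => 1) (v1 c) T w x = 0 := by
      intro c
      unfold MP
      rw [card_eq_zero, filter_eq_empty_iff]
      intro n hn hn2
      unfold cntS at hc
      rw [card_eq_zero, filter_eq_empty_iff] at hc
      exact hc hn hn2.1
    have h3 : (Icc 1 H).filter (fun c : ℕ => U * cntS T x < (Vz w)⁻¹ * MP (G2 a b) (fun _ => 1) (v1 c) T w x) = ∅ := by
      rw [filter_eq_empty_iff]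
      intro c _
      rw [h2 c, hc]; simp
    rw [h3]; simp
  · have hcr : (0 : ℝ) < cntS T x := by exact_mod_cast hc
    have e1 : ∀ c : ℕ, (Vz w)⁻¹ * (MP (G2 a b) (fun _ => 1) (v1 c) T w x : ℝ) =
        ∑ n ∈ (Icc 1 x).filter (fun n : ℕ => n ∈ T), LL w ((c : ℤ) + (a * (n : ℤ) ^ 2 + b * n)) := by
      intro c
      unfold MP LL
      rw [← sum_filter, sum_const, nsmul_eq_mul, filter_filter, mul_comm]
      congr 2
      apply congrArg
      apply filter_congr
      intro n _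
      constructor
      · rintro ⟨h2, h3⟩
        refine ⟨h2, fun p hp => ?_⟩
        have := h3 0 p hp
        rw [vl_one] at this
        rwa [add_comm (c : ℤ)]
      · rintro ⟨h2, h3⟩
        refine ⟨h2, fun i p hp => ?_⟩
        have := h3 p hp
        rw [vl_one]
        rwa [add_comm (c : ℤ)] at this
    have key : U * cntS T x * (((Icc 1 H).filter (fun c : ℕ => U * cntS T x <
        (Vz w)⁻¹ * MP (G2 a b) (fun _ => 1) (v1 c) T w x)).card : ℝ) ≤ 2 * H * cntS T x := by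
      calc U * cntS T x * (((Icc 1 H).filter (fun c : ℕ => U * cntS T x <
            (Vz w)⁻¹ * MP (G2 a b) (fun _ => 1) (v1 c) T w x)).card : ℝ)
          = ∑ _c ∈ (Icc 1 H).filter (fun c : ℕ => U * cntS T x <
            (Vz w)⁻¹ * MP (G2 a b) (fun _ => 1) (v1 c) T w x), U * cntS T x := by rw [sum_const, nsmul_eq_mul]; ring
        _ ≤ ∑ c ∈ (Icc 1 H).filter (fun c : ℕ => U * cntS T x <
            (Vz w)⁻¹ * MP (G2 a b) (fun _ => 1) (v1 c) T w x), (Vz w)⁻¹ * (MP (G2 a b) (fun _ => 1) (v1 c) T w x : ℝ) := by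
            apply sum_le_sum
            intro c hc
            exact (mem_filter.1 hc).2.le
        _ ≤ ∑ c ∈ Icc 1 H, (Vz w)⁻¹ * (MP (G2 a b) (fun _ => 1) (v1 c) T w x : ℝ) := by
            apply sum_le_sum_of_subset_of_nonneg (filter_subset _ _)
            intro c _ _
            exact mul_nonneg (inv_pos.2 (Vz_pos w)).le (Nat.cast_nonneg _)
        _ = ∑ n ∈ (Icc 1 x).filter (fun n : ℕ => n ∈ T), ∑ c ∈ Icc 1 H, LL w ((c : ℤ) + (a * (n : ℤ) ^ 2 + b * n)) := by
            rw [sum_comm]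
            exact sum_congr rfl fun c _ => e1 c
        _ ≤ ∑ _n ∈ (Icc 1 x).filter (fun n : ℕ => n ∈ T), 2 * (H : ℝ) := sum_le_sum fun n _ => k0 _
        _ = 2 * H * cntS T x := by
            rw [sum_const, nsmul_eq_mul]
            unfold cntS
            ring
    have h4 : ((((Icc 1 H).filter (fun c : ℕ => U * cntS T x <
        (Vz w)⁻¹ * MP (G2 a b) (fun _ => 1) (v1 c) T w x)).card : ℝ) * U) * cntS T x ≤ 2 * H * cntS T x := by
      linarith
    exact le_of_mul_le_mul_right h4 hcr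


lemma SS_eq (a b : ℤ) (c w : ℕ) : SS (G2 a b) (v1 c) w = (Vz w)⁻¹ *
    ∏ p ∈ pz w, (1 - (((range p).filter (fun r : ℕ => (p : ℤ) ∣ a * (r : ℤ) ^ 2 + b * r + c)).card : ℝ) / p) := by
  unfold SS
  rw [pow_one]
  congr 1
  apply prod_congr rfl
  intro p _
  have h1 : Pool.Agent.U746.AS.rho (G2 a b) (v1 c) p = ((range p).filter (fun r : ℕ => (p : ℤ) ∣ a * (r : ℤ) ^ 2 + b * r + c)).card := by
    unfold Pool.Agent.U746.AS.rho
    congr 1
    apply filter_congr
    intro r _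
    constructor
    · rintro ⟨i, hi⟩
      rw [G2_eval] at hi
      unfold v1 at hi
      rwa [add_comm] at hi
    · intro h
      refine ⟨0, ?_⟩
      rw [G2_eval]
      unfold v1
      rwa [add_comm]
  rw [h1]

open Classical in
/-- **quadratic polynomials at the elements of arbitrary subsets of a regular set** -/
theorem quad (a b : ℤ) (ha : 0 < a) (C : ℕ) (M : ℝ) (hM : 1 ≤ M) (B : ℕ) (hB : 1 ≤ B) (ε : ℝ) (hε : 0 < ε) :
    ∃ w₀ : ℕ, ∀ w : ℕ, w₀ ≤ w → ∀ T : Set ℕ, Reg T C M → ∃ x₀ : ℕ, ∀ x : ℕ, x₀ ≤ x → ∀ H : ℕ, H ≤ B * x ^ 2 → x ^ 2 ≤ B * H →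
      ∀ S : Set ℕ, S ⊆ T → (((Icc 1 H).filter (fun c : ℕ => Pool.Agent.W468.ConjF.Admissible a b c ∧
        ¬ ∃ K : ℝ, 0 < K ∧ Tendsto (fun z => CF a b c z) atTop (𝓝 K) ∧ ∀ y : ℕ, y ≤ x →
          |(NP (G2 a b) (fun _ => 1) (v1 c) S y : ℝ) - K * ((MP (G2 a b) (fun _ => 1) (v1 c) S w y : ℝ) /
            ∏ p ∈ pz w, (1 - (((range p).filter (fun r : ℕ => (p : ℤ) ∣ a * (r : ℤ) ^ 2 + b * r + c)).card : ℝ) / p)) /
            Real.log x| ≤ ε * cntS T x / Real.log x)).card : ℝ) ≤ ε * H := by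
  have hd : ∀ i, 1 ≤ (G2 a b i).natDegree := fun i => by rw [G2_deg a b ha i]; norm_num
  have hl : ∀ i, 0 < (G2 a b i).leadingCoeff := fun i => by rw [G2_lead a b ha i]; exact ha
  set v : ℝ := min (1 / 2) (ε ^ 2 / 24) with hv
  have hv0 : 0 < v := by rw [hv]; positivity
  have hv2 : v ≤ 1 / 2 := min_le_left _ _
  have hv3 : v ≤ ε ^ 2 / 24 := min_le_right _ _
  obtain ⟨w0, hw03, h0⟩ := arb2 (G2 a b) hd hl (fun _ => 1) (fun _ => Or.inl rfl) C M hM B hB (ε / 3) (by positivity)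
  obtain ⟨z₀, hz₀⟩ := Pool.Agent.W468.ConjF.good_most a b ha (v / 2) (ε / 3) (by positivity) (by positivity)
  refine ⟨max (max w0 z₀) (max a.toNat (⌈8 / v⌉₊)), fun w hw T hT => ?_⟩
  have hw0 : w0 ≤ w := ((le_max_left _ _).trans (le_max_left _ _)).trans hw
  have hwz : z₀ ≤ w := ((le_max_right _ _).trans (le_max_left _ _)).trans hw
  have hwa : a.toNat ≤ w := ((le_max_left _ _).trans (le_max_right _ _)).trans hw
  have hwv : 8 / v ≤ w := (Nat.le_ceil _).trans (by exact_mod_cast ((le_max_right _ _).trans (le_max_right _ _)).trans hw)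
  have hw3 : 3 ≤ w := hw03.trans hw0
  have hwpos : (0 : ℝ) < w := by exact_mod_cast (by omega : 0 < w)
  have hwv' : 4 / (w : ℝ) ≤ v / 2 := by
    rw [div_le_iff₀ hv0] at hwv
    rw [div_le_iff₀ hwpos]
    linarith
  set Vi : ℝ := (Vz w)⁻¹ with hVi
  have hVi0 : 0 < Vi := inv_pos.2 (Vz_pos w)
  obtain ⟨x1, h1⟩ := h0 w hw0 T hT
  obtain ⟨H1, hH1⟩ := hz₀ w hwz
  obtain ⟨H2, hH2⟩ := sift_few a b w (by omega)
  refine ⟨max (max x1 3) (max (B * H1) (B * H2)), fun x hx H hHx hxH S hST => ?_⟩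
  have hx1 : x1 ≤ x := ((le_max_left _ _).trans (le_max_left _ _)).trans hx
  have hx3 : 3 ≤ x := ((le_max_right _ _).trans (le_max_left _ _)).trans hx
  have hxH1 : B * H1 ≤ x := ((le_max_left _ _).trans (le_max_right _ _)).trans hx
  have hxH2 : B * H2 ≤ x := ((le_max_right _ _).trans (le_max_right _ _)).trans hx
  have hxx : x ≤ x ^ 2 := Nat.le_self_pow (by norm_num) x
  have hHH1 : H1 ≤ H := Nat.le_of_mul_le_mul_left ((hxH1.trans hxx).trans hxH) (by omega)
  have hHH2 : H2 ≤ H := Nat.le_of_mul_le_mul_left ((hxH2.trans hxx).trans hxH) (by omega)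
  have hl0 : 0 < Real.log x := Real.log_pos (by exact_mod_cast (by omega : 1 < x))
  have hN0 : (0 : ℝ) ≤ cntS T x := Nat.cast_nonneg _
  have k1 := h1 x hx1 (fun _ => 0) (fun _ => H) (fun i => by rw [G2_deg a b ha i, zero_add]; exact ⟨hHx, hxH⟩)
    (fun i h => by norm_num at h) S hST
  simp only [prod_const, card_univ, Fintype.card_fin, pow_one] at k1
  obtain ⟨E, hE1, hE2⟩ := hH1 H hHH1
  have k3 := hH2 H hHH2 T x (6 / ε) (by positivity)
  have k3' : (((Icc 1 H).filter (fun c : ℕ => 6 / ε * cntS T x < Vi * MP (G2 a b) (fun _ => 1) (v1 c) T w x)).card : ℝ) ≤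
      ε / 3 * H := by
    have e6 : ε / 6 * (6 / ε) = 1 := by field_simp
    have := mul_le_mul_of_nonneg_left k3 (show 0 ≤ ε / 6 by positivity)
    nlinarith
  set E1 := (Icc 1 H).filter (fun c : ℕ => ¬ ∀ y : ℕ, y ≤ x → |2 * Real.log x * NP (G2 a b) (fun _ => 1) (v1 c) S y -
    Vi * MP (G2 a b) (fun _ => 1) (v1 c) S w y| ≤ ε / 3 * cntS T x) with hE1d
  set E3 := (Icc 1 H).filter (fun c : ℕ => 6 / ε * cntS T x < Vi * MP (G2 a b) (fun _ => 1) (v1 c) T w x) with hE3d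
  have c1 : (E1.card : ℝ) ≤ ε / 3 * H := by
    refine le_trans ?_ k1
    apply Nat.cast_le.2
    apply card_le_card_of_injOn v1
    · intro c hc
      rw [hE1d, mem_coe, mem_filter] at hc
      rw [mem_coe, mem_filter]
      refine ⟨?_, fun h2 => hc.2 fun y hy => ?_⟩
      · unfold Pool.Agent.U746.AP.box
        rw [Fintype.mem_piFinset]
        intro i
        show c ∈ Ioc 0 (0 + H)
        have := mem_Icc.1 hc.1
        rw [mem_Ioc]; omega
      · have h4 := h2 y hy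
        rw [Lam_eq a b ha] at h4
        exact h4
    · intro c _ c' _ hcc
      exact congrFun hcc 0
  have hsub : (Icc 1 H).filter (fun c : ℕ => Pool.Agent.W468.ConjF.Admissible a b c ∧
        ¬ ∃ K : ℝ, 0 < K ∧ Tendsto (fun z => CF a b c z) atTop (𝓝 K) ∧ ∀ y : ℕ, y ≤ x →
          |(NP (G2 a b) (fun _ => 1) (v1 c) S y : ℝ) - K * ((MP (G2 a b) (fun _ => 1) (v1 c) S w y : ℝ) /
            ∏ p ∈ pz w, (1 - (((range p).filter (fun r : ℕ => (p : ℤ) ∣ a * (r : ℤ) ^ 2 + b * r + c)).card : ℝ) / p)) /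
            Real.log x| ≤ ε * cntS T x / Real.log x) ⊆ (E1 ∪ E) ∪ E3 := by
    intro c hc
    rw [mem_filter] at hc
    obtain ⟨hcI, hadm, hng⟩ := hc
    by_contra hcon
    rw [mem_union, mem_union, not_or, not_or] at hcon
    obtain ⟨⟨n1, n2⟩, n3⟩ := hcon
    apply hng
    have g1 : ∀ y : ℕ, y ≤ x → |2 * Real.log x * NP (G2 a b) (fun _ => 1) (v1 c) S y -
        Vi * MP (G2 a b) (fun _ => 1) (v1 c) S w y| ≤ ε / 3 * cntS T x := by
      by_contra h2
      exact n1 (mem_filter.2 ⟨hcI, h2⟩)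
    have g3 : Vi * MP (G2 a b) (fun _ => 1) (v1 c) T w x ≤ 6 / ε * cntS T x := by
      by_contra h2
      exact n3 (mem_filter.2 ⟨hcI, not_le.1 h2⟩)
    have hadm4 := hadm.2.2.2
    have g2 := hE2 c hcI n2 hadm4
    obtain ⟨K, hK0, hK⟩ := Pool.Agent.W468.ConjF.CF_tendsto a b c ha hadm4
    have hcl := CF_close a b c ha K hK w (by omega) (by omega) (v / 2) g2
    have hSS : SS (G2 a b) (v1 c) w = 2 * CF a b c w := by
      rw [← Pool.Agent.W468.ConjF.euler_eq a b c hadm w (by omega)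
        (fun _ => Pool.Agent.W468.ConjF.P a b c) (fun _ => rfl)]
      apply SS_euler
      intro i n
      rw [G2_eval, Pool.Agent.W468.ConjF.eval_P]
      unfold v1
      ring
    have hSP := SS_eq a b c w
    rw [← hVi] at hSP
    set Pw : ℝ := ∏ p ∈ pz w, (1 - (((range p).filter (fun r : ℕ => (p : ℤ) ∣ a * (r : ℤ) ^ 2 + b * r + c)).card : ℝ) / p) with hPw
    set SSc := SS (G2 a b) (v1 c) w with hSSc
    have hCF0 := Pool.Agent.W468.ConjF.CF_pos a b c w
    have hSSpos : 0 < SSc := by rw [hSS]; linarith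
    have hPw0 : 0 < Pw := by
      by_contra h
      have := mul_nonpos_of_nonneg_of_nonpos hVi0.le (not_lt.1 h)
      rw [← hSP] at this
      linarith
    have hexp : Real.exp (v / 2 + 4 / w) - 1 ≤ ε ^ 2 / 12 := by
      have h2 : Real.exp (v / 2 + 4 / w) ≤ Real.exp v := Real.exp_le_exp.2 (by linarith)
      have h3 := exp_small v hv0.le hv2
      linarith
    have h2K : |SSc - 2 * K| ≤ SSc * (ε ^ 2 / 12) := by
      have e1 : SSc - 2 * K = -(2 * (K - CF a b c w)) := by rw [hSS]; ring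
      rw [e1, abs_neg, abs_mul, abs_of_pos (show (0 : ℝ) < 2 by norm_num)]
      calc 2 * |K - CF a b c w| ≤ 2 * (CF a b c w * (Real.exp (v / 2 + 4 / w) - 1)) := by linarith
        _ = SSc * (Real.exp (v / 2 + 4 / w) - 1) := by rw [hSS]; ring
        _ ≤ SSc * (ε ^ 2 / 12) := mul_le_mul_of_nonneg_left hexp hSSpos.le
    refine ⟨K, hK0, hK, fun y hy => ?_⟩
    have g4 := g1 y hy
    have hM1 : (MP (G2 a b) (fun _ => 1) (v1 c) S w y : ℝ) ≤ MP (G2 a b) (fun _ => 1) (v1 c) T w x := by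
      apply Nat.cast_le.2
      unfold MP
      apply card_le_card
      intro n hn
      rw [mem_filter, mem_Icc] at hn ⊢
      exact ⟨⟨hn.1.1, hn.1.2.trans hy⟩, hST hn.2.1, hn.2.2⟩
    set N : ℝ := (NP (G2 a b) (fun _ => 1) (v1 c) S y : ℝ) with hN
    set M0 : ℝ := (MP (G2 a b) (fun _ => 1) (v1 c) S w y : ℝ) with hM0
    have hM00 : 0 ≤ M0 := Nat.cast_nonneg _
    have hVM : Vi * M0 = SSc * (M0 / Pw) := by rw [hSP]; field_simp
    have h5 : |(SSc - 2 * K) * (M0 / Pw)| ≤ ε / 2 * cntS T x := by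
      rw [abs_mul, abs_of_nonneg (div_nonneg hM00 hPw0.le)]
      calc |SSc - 2 * K| * (M0 / Pw) ≤ SSc * (ε ^ 2 / 12) * (M0 / Pw) :=
            mul_le_mul_of_nonneg_right h2K (div_nonneg hM00 hPw0.le)
        _ = (ε ^ 2 / 12) * (Vi * M0) := by rw [hVM]; ring
        _ ≤ (ε ^ 2 / 12) * (Vi * MP (G2 a b) (fun _ => 1) (v1 c) T w x) := by gcongr
        _ ≤ (ε ^ 2 / 12) * (6 / ε * cntS T x) := mul_le_mul_of_nonneg_left g3 (by positivity)
        _ = ε / 2 * cntS T x := by field_simp; ring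
    have h6 : |2 * Real.log x * N - 2 * K * (M0 / Pw)| ≤ ε / 3 * cntS T x + ε / 2 * cntS T x := by
      have e1 : 2 * Real.log x * N - 2 * K * (M0 / Pw) = (2 * Real.log x * N - Vi * M0) + (SSc - 2 * K) * (M0 / Pw) := by
        rw [hVM]; ring
      rw [e1]
      exact (abs_add_le _ _).trans (add_le_add g4 h5)
    have e1 : N - K * (M0 / Pw) / Real.log x = (2 * Real.log x * N - 2 * K * (M0 / Pw)) / (2 * Real.log x) := by field_simp
    rw [e1, abs_div, abs_of_pos (show 0 < 2 * Real.log x by linarith), div_le_iff₀ (by linarith)]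
    have e2 : ε * cntS T x / Real.log x * (2 * Real.log x) = 2 * (ε * cntS T x) := by field_simp
    rw [e2]
    have hεx : 0 ≤ ε * cntS T x := by positivity
    linarith
  calc (((Icc 1 H).filter (fun c : ℕ => Pool.Agent.W468.ConjF.Admissible a b c ∧
        ¬ ∃ K : ℝ, 0 < K ∧ Tendsto (fun z => CF a b c z) atTop (𝓝 K) ∧ ∀ y : ℕ, y ≤ x →
          |(NP (G2 a b) (fun _ => 1) (v1 c) S y : ℝ) - K * ((MP (G2 a b) (fun _ => 1) (v1 c) S w y : ℝ) /
            ∏ p ∈ pz w, (1 - (((range p).filter (fun r : ℕ => (p : ℤ) ∣ a * (r : ℤ) ^ 2 + b * r + c)).card : ℝ) / p)) /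
            Real.log x| ≤ ε * cntS T x / Real.log x)).card : ℝ) ≤ ((E1 ∪ E) ∪ E3).card := by exact_mod_cast card_le_card hsub
    _ ≤ E1.card + E.card + E3.card := by
        have h2 := card_union_le (E1 ∪ E) E3
        have h3 := card_union_le E1 E
        have : ((E1 ∪ E) ∪ E3).card ≤ E1.card + E.card + E3.card := by omega
        exact_mod_cast this
    _ ≤ ε / 3 * H + ε / 3 * H + ε / 3 * H := by linarith
    _ = ε * H := by ring

end Pool.Agent.U746.RR
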