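import Pool.Agent.U746.RR.Reg

/-! Regular sets which contain the arguments at which several polynomials are prime. -/

set_option autoImplicit false

namespace Pool.Agent.U746.RR
open Finset Polynomial Filter
open Pool.Agent.H373R2.T7 (pz Vz mem_pz ev_L' ev_log')
open Pool.Agent.H474R2.PG (rho)
open Pool.Agent.U746.AS (PP mem_PP cntS cntSq cntS_le)
open Pool.Agent.U746.AP (Reg)

lemma cnt_mono {T U : Set ℕ} (h : T ⊆ U) (x : ℕ) : cntS T x ≤ cntS U x := by
  classical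
  unfold cntS
  apply card_le_card
  intro n hn
  rw [mem_filter] at hn ⊢
  exact ⟨hn.1, h hn.2⟩

lemma cnt_add (T U : Set ℕ) (n0 : ℕ) (hU : ∀ n, n ∈ U → n ∈ T ∨ n ≤ n0) (x : ℕ) : cntS U x ≤ cntS T x + n0 := by
  classical
  unfold cntS
  have h7 : (Icc 1 x).filter (fun n : ℕ => n ∈ U) ⊆ (Icc 1 x).filter (fun n : ℕ => n ∈ T) ∪ Icc 1 n0 := by
    intro n hn
    rw [mem_filter] at hn
    rw [mem_union, mem_filter, mem_Icc (a := 1) (b := n0)]
    rcases hU n hn.2 with h8 | h8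
    · exact Or.inl ⟨hn.1, h8⟩
    · exact Or.inr ⟨(mem_Icc.1 hn.1).1, h8⟩
  refine (card_le_card h7).trans ((card_union_le _ _).trans ?_)
  rw [Nat.card_Icc 1 n0, Nat.add_sub_cancel]

lemma cntq_add (T U : Set ℕ) (n0 : ℕ) (hU : ∀ n, n ∈ U → n ∈ T ∨ n ≤ n0) (q r x : ℕ) : cntSq U q r x ≤ cntSq T q r x + n0 := by
  classical
  unfold cntSq
  have h7 : (Icc 1 x).filter (fun n : ℕ => n ∈ U ∧ n ≡ r [MOD q]) ⊆
      (Icc 1 x).filter (fun n : ℕ => n ∈ T ∧ n ≡ r [MOD q]) ∪ Icc 1 n0 := by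
    intro n hn
    rw [mem_filter] at hn
    rw [mem_union, mem_filter, mem_Icc (a := 1) (b := n0)]
    rcases hU n hn.2.1 with h8 | h8
    · exact Or.inl ⟨hn.1, h8, hn.2.2⟩
    · exact Or.inr ⟨(mem_Icc.1 hn.1).1, h8⟩
  refine (card_le_card h7).trans ((card_union_le _ _).trans ?_)
  rw [Nat.card_Icc 1 n0, Nat.add_sub_cancel]

/-- the first integers can be added to a regular set -/
lemma Reg_fin {T : Set ℕ} {C : ℕ} {M : ℝ} (hM : 1 ≤ M) (hT : Reg T C M) (n0 : ℕ) : Reg (T ∪ {n | n ≤ n0}) C (M + 1) := by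
  classical
  intro D
  obtain ⟨x1, h1⟩ := hT D
  obtain ⟨x2, h2⟩ := ev_log' (C + D) 1
  refine ⟨max (max x1 x2) (max 3 (n0 ^ 2)), fun x hx => ?_⟩
  have b1 : x1 ≤ x := ((le_max_left _ _).trans (le_max_left _ _)).trans hx
  have b2 : x2 ≤ x := ((le_max_right _ _).trans (le_max_left _ _)).trans hx
  have b3 : 3 ≤ x := ((le_max_left _ _).trans (le_max_right _ _)).trans hx
  have b4 : n0 ^ 2 ≤ x := ((le_max_right _ _).trans (le_max_right _ _)).trans hx
  obtain ⟨k1, k2⟩ := h1 x b1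
  have k3 := h2 x b2
  rw [one_mul] at k3
  have hx0 : (0 : ℝ) < x := by exact_mod_cast (by omega : 0 < x)
  have hL0 : 0 < Real.log x := Real.log_pos (by exact_mod_cast (by omega : 1 < x))
  have hmono : (cntS T x : ℝ) ≤ cntS (T ∪ {n | n ≤ n0}) x := by exact_mod_cast cnt_mono Set.subset_union_left x
  refine ⟨k1.trans (mul_le_mul_of_nonneg_right hmono (by positivity)), fun t ht htD r => ?_⟩
  have h5 : (cntSq (T ∪ {n | n ≤ n0}) (∏ p ∈ t, p) r x : ℝ) ≤ cntSq T (∏ p ∈ t, p) r x + n0 := by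
    have h6 : cntSq (T ∪ {n | n ≤ n0}) (∏ p ∈ t, p) r x ≤ cntSq T (∏ p ∈ t, p) r x + n0 :=
      cntq_add T _ n0 (fun n hn => hn) _ r x
    exact_mod_cast h6
  have hP0 : 0 ≤ ∏ p ∈ t, (2 / (p : ℝ)) := prod_nonneg fun p _ => by positivity
  have k4 : (n0 : ℝ) ≤ cntS T x * ∏ p ∈ t, (2 / (p : ℝ)) := by
    have hsx : √(x : ℝ) * √(x : ℝ) = x := Real.mul_self_sqrt hx0.le
    have k7 : (n0 : ℝ) ≤ √x := by
      apply Real.le_sqrt_of_sq_le
      exact_mod_cast b4
    have k8 : 1 / Real.log x ^ D ≤ ∏ p ∈ t, (2 / (p : ℝ)) := by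
      have k9 : 1 / (∏ p ∈ t, (p : ℝ)) ≤ ∏ p ∈ t, (2 / (p : ℝ)) := by
        rw [one_div, ← prod_inv_distrib]
        apply Finset.prod_le_prod
        · intro p _; positivity
        · intro p hp
          rw [inv_eq_one_div]
          exact div_le_div_of_nonneg_right (by norm_num) (Nat.cast_nonneg p)
      refine le_trans ?_ k9
      apply div_le_div_of_nonneg_left zero_le_one _ htD
      exact prod_pos fun p hp => by exact_mod_cast (ht p hp).pos
    have k9 : √(x : ℝ) ≤ cntS T x * (1 / Real.log x ^ D) := by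
      rw [mul_one_div, le_div_iff₀ (by positivity)]
      have k10 : √(x : ℝ) * Real.log x ^ (C + D) ≤ x := by
        calc √(x : ℝ) * Real.log x ^ (C + D) ≤ √(x : ℝ) * √(x : ℝ) := mul_le_mul_of_nonneg_left k3 (Real.sqrt_nonneg _)
          _ = x := hsx
      have k11 : (√(x : ℝ) * Real.log x ^ D) * Real.log x ^ C ≤ cntS T x * Real.log x ^ C := by
        refine le_trans (le_of_eq ?_) (k10.trans k1)
        rw [pow_add]; ring
      exact le_of_mul_le_mul_right k11 (by positivity)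
    exact (k7.trans k9).trans (mul_le_mul_of_nonneg_left k8 (Nat.cast_nonneg _))
  have k5 := k2 t ht htD r
  have k6 : M * (cntS T x : ℝ) * ∏ p ∈ t, (2 / (p : ℝ)) + cntS T x * ∏ p ∈ t, (2 / (p : ℝ)) ≤
      (M + 1) * cntS (T ∪ {n | n ≤ n0}) x * ∏ p ∈ t, (2 / (p : ℝ)) := by
    have e1 : M * (cntS T x : ℝ) * ∏ p ∈ t, (2 / (p : ℝ)) + cntS T x * ∏ p ∈ t, (2 / (p : ℝ)) =
        (M + 1) * cntS T x * ∏ p ∈ t, (2 / (p : ℝ)) := by ring
    rw [e1]
    apply mul_le_mul_of_nonneg_right _ hP0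
    exact mul_le_mul_of_nonneg_left hmono (by linarith)
  linarith

/-- the square of a nonconstant polynomial with positive leading coefficient exceeds `n` -/
lemma sq_gt (f : ℤ[X]) (hd : 0 < f.natDegree) : ∃ n0 : ℕ, ∀ n : ℕ, n0 ≤ n → (n : ℤ) < (f.eval (n : ℤ)) ^ 2 := by
  set φ := Int.castRingHom ℝ
  have hinj : Function.Injective φ := RingHom.injective_int φ
  set Q : ℝ[X] := (f.map φ) ^ 2 - X with hQ
  have hdeg : (f.map φ).natDegree = f.natDegree := natDegree_map_eq_of_injective hinj f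
  have hne : f.map φ ≠ 0 := by
    intro h
    rw [h, natDegree_zero] at hdeg
    omega
  have h1 : (X : ℝ[X]).degree < ((f.map φ) ^ 2).degree := by
    rw [degree_X, degree_eq_natDegree (pow_ne_zero 2 hne), natDegree_pow, hdeg]
    exact_mod_cast (by omega : 1 < 2 * f.natDegree)
  have h2 : Q.degree = ((f.map φ) ^ 2).degree := degree_sub_eq_left_of_degree_lt h1
  have h3 : Q.leadingCoeff = ((f.map φ) ^ 2).leadingCoeff := leadingCoeff_sub_of_degree_lt h1
  have h4 : Tendsto (fun x => Q.eval x) atTop atTop := by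
    apply Q.tendsto_atTop_of_leadingCoeff_nonneg
    · rw [h2, degree_eq_natDegree (pow_ne_zero 2 hne), natDegree_pow, hdeg]
      exact_mod_cast (by omega : 0 < 2 * f.natDegree)
    · rw [h3, leadingCoeff_pow]
      positivity
  have h5 := (h4.comp (tendsto_natCast_atTop_atTop (R := ℝ))).eventually_gt_atTop 0
  obtain ⟨n0, h6⟩ := eventually_atTop.1 h5
  refine ⟨n0, fun n hn => ?_⟩
  have h7 := h6 n hn
  simp only [Function.comp, hQ, eval_sub, eval_pow, eval_X] at h7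
  have h8 : (f.map φ).eval ((n : ℕ) : ℝ) = ((f.eval (n : ℤ) : ℤ) : ℝ) := by
    have := Polynomial.eval_intCast_map φ f (n : ℤ)
    simpa using this
  rw [h8] at h7
  have h9 : ((n : ℤ) : ℝ) < (((f.eval (n : ℤ)) ^ 2 : ℤ) : ℝ) := by push_cast; linarith
  exact_mod_cast h9

/-- the arguments `n` at which all values are primes, or are all free of prime factors `≤ n ^ (1/m)` -/
def SV {g : ℕ} (F : Fin g → ℤ[X]) (m : ℕ) : Set ℕ :=
  {n | (∀ i, ((F i).eval (n : ℤ)).toNat.Prime) ∨ ∀ p : ℕ, p.Prime → p ^ m ≤ n → ∀ i, ¬ (p : ℤ) ∣ (F i).eval (n : ℤ)}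

/-- **regular sets** which contain these arguments -/
theorem fam {g : ℕ} (F : Fin g → ℤ[X]) (hF : ∀ i, Irreducible (F i)) (hd : ∀ i, 0 < (F i).natDegree)
    (hl : ∀ i, 0 < (F i).leadingCoeff) (hinj : Function.Injective F) (m : ℕ) :
    ∃ (T : Set ℕ) (C : ℕ) (M : ℝ), 1 ≤ M ∧ Reg T C M ∧ SV F m ⊆ T ∧ ∃ K : ℝ, 0 < K ∧ ∃ x0 : ℕ, ∀ x : ℕ, x0 ≤ x →
      (cntS T x : ℝ) ≤ K * (x / Real.log x ^ g) := by
  classical
  obtain ⟨κ, p0, C, hD⟩ := dat_ex F hF hd hl hinj
  obtain ⟨m0, hm0, M, hM, hreg⟩ := rough_reg hD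
  set m1 : ℕ := max (max m0 m) 2 with hm1
  obtain ⟨h1, K, hK0, x0, h2⟩ := hreg m1 ((le_max_left _ _).trans (le_max_left _ _))
  have h3 := fun i => sq_gt (F i) (hd i)
  choose N hN using h3
  set n0 : ℕ := univ.sup N with hn0
  obtain ⟨x1, h4⟩ := ev_log' g 1
  refine ⟨TT (∏ i, F i) p0 m1 ∪ {n | n ≤ n0}, 2 * g + 1, M + 1, by linarith, Reg_fin hM h1 n0, ?_, K + 1, by linarith,
    max (max x0 x1) (max 3 (n0 ^ 2)), fun x hx => ?_⟩
  · intro n hn
    by_cases hnn : n ≤ n0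
    · exact Or.inr hnn
    · left
      intro p hp hp0 hpn hdv
      rw [dvd_prod_eval F p hp] at hdv
      obtain ⟨i, hi⟩ := hdv
      rcases hn with h5 | h5
      · -- the value is the prime itself
        have h6 := h5 i
        have hpos : 0 < (F i).eval (n : ℤ) := by
          by_contra h7
          have : ((F i).eval (n : ℤ)).toNat = 0 := Int.toNat_eq_zero.2 (not_lt.1 h7)
          rw [this] at h6
          exact Nat.not_prime_zero h6
        have h7 : (((F i).eval (n : ℤ)).toNat : ℤ) = (F i).eval (n : ℤ) := Int.toNat_of_nonneg hpos.le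
        have h8 : p ∣ ((F i).eval (n : ℤ)).toNat := by
          rw [← h7] at hi
          exact_mod_cast hi
        have h9 : p = ((F i).eval (n : ℤ)).toNat := (Nat.prime_dvd_prime_iff_eq hp h6).1 h8
        have h10 : (F i).eval (n : ℤ) = p := by rw [← h7, ← h9]
        have h11 := hN i n ((le_sup (f := N) (mem_univ i)).trans (not_le.1 hnn).le)
        rw [h10] at h11
        have h12 : n < p ^ 2 := by exact_mod_cast h11
        have h13 : p ^ 2 ≤ p ^ m1 := Nat.pow_le_pow_right hp.pos (le_max_right _ _)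
        omega
      · have h6 : p ^ m ≤ n := (Nat.pow_le_pow_right hp.pos ((le_max_right _ _).trans (le_max_left _ _))).trans hpn
        exact h5 p hp h6 i hi
  · have b1 : x0 ≤ x := ((le_max_left _ _).trans (le_max_left _ _)).trans hx
    have b2 : x1 ≤ x := ((le_max_right _ _).trans (le_max_left _ _)).trans hx
    have b3 : 3 ≤ x := ((le_max_left _ _).trans (le_max_right _ _)).trans hx
    have b4 : n0 ^ 2 ≤ x := ((le_max_right _ _).trans (le_max_right _ _)).trans hx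
    have k1 := h2 x b1
    have k2 := h4 x b2
    rw [one_mul] at k2
    have hx0 : (0 : ℝ) < x := by exact_mod_cast (by omega : 0 < x)
    have hL0 : 0 < Real.log x := Real.log_pos (by exact_mod_cast (by omega : 1 < x))
    have k3 : cntS (TT (∏ i, F i) p0 m1 ∪ {n | n ≤ n0}) x ≤ cntS (TT (∏ i, F i) p0 m1) x + n0 :=
      cnt_add _ _ n0 (fun n hn => hn) x
    have k4 : (cntS (TT (∏ i, F i) p0 m1 ∪ {n | n ≤ n0}) x : ℝ) ≤ cntS (TT (∏ i, F i) p0 m1) x + n0 := by exact_mod_cast k3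
    have k7 : (n0 : ℝ) ≤ x / Real.log x ^ g := by
      rw [le_div_iff₀ (by positivity)]
      have k8 : (n0 : ℝ) ≤ √x := by
        apply Real.le_sqrt_of_sq_le
        exact_mod_cast b4
      calc (n0 : ℝ) * Real.log x ^ g ≤ √x * √x := mul_le_mul k8 k2 (by positivity) (Real.sqrt_nonneg _)
        _ = x := Real.mul_self_sqrt hx0.le
    calc (cntS (TT (∏ i, F i) p0 m1 ∪ {n | n ≤ n0}) x : ℝ) ≤ K * (x / Real.log x ^ g) + x / Real.log x ^ g := by linarith
      _ = (K + 1) * (x / Real.log x ^ g) := by ring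

end Pool.Agent.U746.RR
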