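import Pool.Agent.W36.GS.S12

/-! The fundamental lemma for an interval, a residue class and arbitrary forbidden classes, from `W36.GS`. -/

set_option autoImplicit false

namespace Pool.Agent.U746.RR
open Finset
open Pool.Agent.W36.GS (rd cube sg sgq VV dn fldq mem_cube)

/-- the set of the points in forbidden classes -/
def OO (Om : ℕ → Finset ℕ) (p : ℕ) : Set (Fin 1 → ZMod p) := {x | (x 0).val ∈ Om p}

lemma OO_ncard (Om : ℕ → Finset ℕ) (p : ℕ) (hp : p.Prime) (h : Om p ⊆ range p) : (OO Om p).ncard = (Om p).card := by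
  haveI : NeZero p := ⟨hp.ne_zero⟩
  rw [← Set.ncard_coe_finset]
  symm
  refine Set.ncard_congr (s := ((Om p : Finset ℕ) : Set ℕ)) (fun (a : ℕ) _ => (fun _ : Fin 1 => (a : ZMod p))) ?_ ?_ ?_
  · intro a ha
    have h1 : a < p := mem_range.1 (h (by exact_mod_cast ha))
    show ((a : ℕ) : ZMod p).val ∈ Om p
    rw [ZMod.val_natCast, Nat.mod_eq_of_lt h1]
    exact_mod_cast ha
  · intro a b ha hb hab
    have h1 : a < p := mem_range.1 (h (by exact_mod_cast ha))
    have h2 : b < p := mem_range.1 (h (by exact_mod_cast hb))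
    have h3 := congrFun hab 0
    have h4 := congrArg ZMod.val h3
    rw [ZMod.val_natCast, ZMod.val_natCast, Nat.mod_eq_of_lt h1, Nat.mod_eq_of_lt h2] at h4
    exact h4
  · intro x hx
    refine ⟨(x 0).val, by exact_mod_cast hx, ?_⟩
    funext i
    have : i = 0 := Subsingleton.elim _ _
    subst this
    exact ZMod.natCast_zmod_val (x 0)

open Classical in
/-- **fundamental lemma** -/
theorem fl1 (κ : ℕ) {ε : ℝ} (hε : 0 < ε) : ∃ K y0 : ℕ, 1 ≤ K ∧ 2 ≤ y0 ∧ ∀ y : ℕ, y0 ≤ y → ∀ H : ℕ, y ^ K ≤ H →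
    ∀ P : Finset ℕ, (∀ p ∈ P, p.Prime ∧ p ≤ y) → ∀ Om : ℕ → Finset ℕ, (∀ p ∈ P, Om p ⊆ range p ∧ (Om p).card ≤ κ) →
    ∀ q : ℕ, 1 ≤ q → (∀ p ∈ P, ¬ p ∣ q) → ∀ r : ℕ,
    |(((Icc 1 (q * H)).filter (fun n : ℕ => n ≡ r [MOD q] ∧ ∀ p ∈ P, n % p ∉ Om p)).card : ℝ) -
      H * ∏ p ∈ P, (1 - ((Om p).card : ℝ) / p)| ≤ ε * (H * ∏ p ∈ P, (1 - ((Om p).card : ℝ) / p)) := by
  obtain ⟨K, y0, hK, hy0, h⟩ := fldq 1 κ hε
  refine ⟨K, y0, hK, hy0, fun y hy H hH P hP Om hOm q hq hPq r => ?_⟩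
  have h1 := h y hy H hH P hP (OO Om) (by
    intro p hp
    rw [OO_ncard Om p (hP p hp).1 (hOm p hp).1, pow_one]
    exact Nat.mul_le_mul_right _ (hOm p hp).2) 1 (by
    intro p hp hd
    have h2 := (hP p hp).1.one_lt
    have h3 := Int.le_of_dvd one_pos hd
    omega) q hq hPq isCoprime_one_left (fun _ => (r : ZMod q)) (fun _ => 1)
  have hV : VV P (OO Om) = ∏ p ∈ P, (1 - ((Om p).card : ℝ) / p) := by
    unfold VV dn
    apply prod_congr rfl
    intro p hp
    rw [OO_ncard Om p (hP p hp).1 (hOm p hp).1, pow_one]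
  have hS : ∑ h ∈ cube 1 (q * H), sgq q (fun _ => (r : ZMod q)) P (OO Om) ((fun _ => 1) + (1 : ℤ) • h) =
      (((Icc 1 (q * H)).filter (fun n : ℕ => n ≡ r [MOD q] ∧ ∀ p ∈ P, n % p ∉ Om p)).card : ℝ) := by
    rw [card_filter]
    push_cast
    symm
    apply sum_bij (fun (n : ℕ) _ => (fun _ : Fin 1 => (n : ℤ) - 1))
    · intro n hn
      rw [mem_Icc] at hn
      rw [mem_cube]
      intro j
      constructor
      · have : (1 : ℤ) ≤ n := by exact_mod_cast hn.1
        omega
      · have : (n : ℤ) ≤ ((q * H : ℕ) : ℤ) := by exact_mod_cast hn.2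
        omega
    · intro n _ n' _ hnn
      have := congrFun hnn 0
      omega
    · intro h hh
      rw [mem_cube] at hh
      obtain ⟨h2, h3⟩ := hh 0
      refine ⟨(h 0 + 1).toNat, ?_, ?_⟩
      · rw [mem_Icc]; omega
      · funext i
        have : i = 0 := Subsingleton.elim _ _
        subst this
        show (((h 0 + 1).toNat : ℕ) : ℤ) - 1 = h 0
        rw [Int.toNat_of_nonneg (by omega)]
        ring
    · intro n hn
      have e1 : ((fun _ => 1) + (1 : ℤ) • (fun _ : Fin 1 => (n : ℤ) - 1) : Fin 1 → ℤ) = fun _ => (n : ℤ) := by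
        funext i
        simp
      rw [e1]
      unfold sgq sg
      have e2 : (rd q (fun _ : Fin 1 => (n : ℤ)) = fun _ => (r : ZMod q)) ↔ n ≡ r [MOD q] := by
        rw [← ZMod.natCast_eq_natCast_iff]
        unfold rd
        constructor
        · intro h4
          have := congrFun h4 0
          simpa using this
        · intro h4
          funext i
          simpa using h4
      have e3 : (∀ p ∈ P, rd p (fun _ : Fin 1 => (n : ℤ)) ∉ OO Om p) ↔ ∀ p ∈ P, n % p ∉ Om p := by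
        constructor
        · intro h4 p hp h5
          apply h4 p hp
          show ((((n : ℤ)) : ZMod p)).val ∈ Om p
          rw [Int.cast_natCast, ZMod.val_natCast]
          exact h5
        · intro h4 p hp h5
          apply h4 p hp
          have h6 : ((((n : ℤ)) : ZMod p)).val ∈ Om p := h5
          rwa [Int.cast_natCast, ZMod.val_natCast] at h6
      by_cases h5 : n ≡ r [MOD q]
      · rw [if_pos (e2.2 h5)]
        by_cases h6 : ∀ p ∈ P, n % p ∉ Om p
        · rw [if_pos (e3.2 h6), if_pos ⟨h5, h6⟩]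
        · rw [if_neg (fun h7 => h6 (e3.1 h7)), if_neg (fun h7 => h6 h7.2)]
      · rw [if_neg (fun h7 => h5 (e2.1 h7)), if_neg (fun h7 => h5 h7.1)]
  rw [hS, hV, pow_one] at h1
  exact h1

end Pool.Agent.U746.RR
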