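import Pool.Agent.H474R2.GE.FA
import Pool.Agent.U746.AS.Gam

/-! Mertens' theorem for the roots of a product of distinct irreducible polynomials. -/

set_option autoImplicit false

namespace Pool.Agent.U746.RR
open Finset Polynomial Filter
open Pool.Agent.H373R2.T7 (pz Vz mem_pz)
open Pool.Agent.H474R2.PG (rho Sg PR rho_le)
open Pool.Agent.H474R2.GE (mertens_rho)
open Pool.Agent.U746.AS (PP mem_PP)

/-- two distinct irreducible polynomials have no common zero modulo large primes -/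
lemma no_common_zero (f g : ℤ[X]) (hf : Irreducible f) (hg : Irreducible g) (hfd : 0 < f.natDegree) (hgd : 0 < g.natDegree)
    (hfl : 0 < f.leadingCoeff) (hgl : 0 < g.leadingCoeff) (hne : f ≠ g) :
    ∃ B : ℕ, ∀ p : ℕ, p.Prime → B < p → ∀ a : ℤ, (p : ℤ) ∣ f.eval a → ¬ (p : ℤ) ∣ g.eval a := by
  have hprim : f.IsPrimitive := hf.isPrimitive hfd.ne'
  have hprimg : g.IsPrimitive := hg.isPrimitive hgd.ne'
  have hirr : Irreducible (f.map (Int.castRingHom ℚ)) := (IsPrimitive.Int.irreducible_iff_irreducible_map_cast hprim).1 hf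
  have hnF : (f.map (Int.castRingHom ℚ)).natDegree = f.natDegree :=
    natDegree_map_eq_of_injective (RingHom.injective_int (Int.castRingHom ℚ)) f
  have hnG : (g.map (Int.castRingHom ℚ)).natDegree = g.natDegree :=
    natDegree_map_eq_of_injective (RingHom.injective_int (Int.castRingHom ℚ)) g
  have hcop : IsCoprime (f.map (Int.castRingHom ℚ)) (g.map (Int.castRingHom ℚ)) := by
    rw [hirr.coprime_iff_not_dvd]
    intro hdvd
    have h1 : f ∣ g := (IsPrimitive.Int.dvd_iff_map_cast_dvd_map_cast f g hprim).2 hdvd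
    obtain ⟨u, hu⟩ := h1
    have h2 : IsUnit u := (hg.isUnit_or_isUnit hu).resolve_left hf.not_isUnit
    obtain ⟨c, hc, hcu⟩ := Polynomial.isUnit_iff.1 h2
    rcases Int.isUnit_iff.1 hc with h3 | h3
    · rw [h3] at hcu
      apply hne
      rw [hu, ← hcu]; simp
    · rw [h3] at hcu
      have h4 : g.leadingCoeff = -f.leadingCoeff := by
        rw [hu, ← hcu, leadingCoeff_mul]; simp
      omega
  have hres := resultant_ne_zero _ _ hcop
  rw [hnF, hnG, resultant_map_map] at hres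
  have hR : f.resultant g ≠ 0 := by
    intro h0
    apply hres
    rw [h0]; simp
  obtain ⟨P, Q, -, -, hPQ⟩ := exists_mul_add_mul_eq_C_resultant f g le_rfl le_rfl (Or.inl hfd.ne')
  refine ⟨(f.resultant g).natAbs, fun p hp hB a h1 h2 => ?_⟩
  have h3 := congrArg (Polynomial.eval a) hPQ
  rw [eval_add, eval_mul, eval_mul, eval_C] at h3
  have h4 : (p : ℤ) ∣ f.resultant g := by
    rw [← h3]
    exact dvd_add (h1.mul_right _) (h2.mul_right _)
  have h5 := Int.natAbs_le_of_dvd_ne_zero h4 hR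
  simp only [Int.natAbs_natCast] at h5
  omega

lemma dvd_prod_eval {k : ℕ} (F : Fin k → ℤ[X]) (p : ℕ) (hp : p.Prime) (a : ℤ) :
    (p : ℤ) ∣ (∏ i, F i).eval a ↔ ∃ i, (p : ℤ) ∣ (F i).eval a := by
  rw [eval_prod]
  have hpi : Prime (p : ℤ) := Nat.prime_iff_prime_int.1 hp
  rw [hpi.dvd_finset_prod_iff]
  simp

/-- the number of the zeros of the product -/
lemma rho_prod_le {k : ℕ} (F : Fin k → ℤ[X]) (p : ℕ) (hp : p.Prime) : rho (∏ i, F i) p ≤ ∑ i, rho (F i) p := by
  classical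
  unfold rho
  have h1 : (range p).filter (fun a : ℕ => (p : ℤ) ∣ (∏ i, F i).eval (a : ℤ)) ⊆
      univ.biUnion (fun i => (range p).filter (fun a : ℕ => (p : ℤ) ∣ (F i).eval (a : ℤ))) := by
    intro a ha
    rw [mem_filter, dvd_prod_eval F p hp] at ha
    obtain ⟨h1, i, hi⟩ := ha
    rw [mem_biUnion]
    exact ⟨i, mem_univ _, mem_filter.2 ⟨h1, hi⟩⟩
  exact (card_le_card h1).trans card_biUnion_le

/-- equality for large primes -/
lemma rho_prod_eq {k : ℕ} (F : Fin k → ℤ[X]) (hF : ∀ i, Irreducible (F i)) (hd : ∀ i, 0 < (F i).natDegree)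
    (hl : ∀ i, 0 < (F i).leadingCoeff) (hinj : Function.Injective F) :
    ∃ B : ℕ, ∀ p : ℕ, p.Prime → B < p → rho (∏ i, F i) p = ∑ i, rho (F i) p := by
  classical
  have h1 : ∀ ij : Fin k × Fin k, ∃ B : ℕ, ij.1 ≠ ij.2 → ∀ p : ℕ, p.Prime → B < p → ∀ a : ℤ, (p : ℤ) ∣ (F ij.1).eval a →
      ¬ (p : ℤ) ∣ (F ij.2).eval a := by
    rintro ⟨i, j⟩
    by_cases hij : i = j
    · exact ⟨0, fun h => absurd hij h⟩
    · obtain ⟨B, hB⟩ := no_common_zero (F i) (F j) (hF i) (hF j) (hd i) (hd j) (hl i) (hl j) (fun h => hij (hinj h))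
      exact ⟨B, fun _ => hB⟩
  choose B hB using h1
  refine ⟨univ.sup B, fun p hp hBp => ?_⟩
  have h2 : (range p).filter (fun a : ℕ => (p : ℤ) ∣ (∏ i, F i).eval (a : ℤ)) =
      univ.biUnion (fun i => (range p).filter (fun a : ℕ => (p : ℤ) ∣ (F i).eval (a : ℤ))) := by
    ext a
    rw [mem_filter, mem_biUnion, dvd_prod_eval F p hp]
    constructor
    · rintro ⟨h1, i, hi⟩
      exact ⟨i, mem_univ _, mem_filter.2 ⟨h1, hi⟩⟩
    · rintro ⟨i, _, hi⟩
      rw [mem_filter] at hi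
      exact ⟨hi.1, i, hi.2⟩
  unfold rho
  rw [h2, card_biUnion]
  intro i _ j _ hij
  rw [Function.onFun, disjoint_left]
  intro a ha hb
  rw [mem_filter] at ha hb
  exact hB (i, j) hij p hp (lt_of_le_of_lt (le_sup (f := B) (mem_univ (i, j))) hBp) a ha.2 hb.2

/-- **Mertens' theorem** for the product -/
theorem mertens_prod {k : ℕ} (F : Fin k → ℤ[X]) (hF : ∀ i, Irreducible (F i)) (hd : ∀ i, 0 < (F i).natDegree)
    (hl : ∀ i, 0 < (F i).leadingCoeff) (hinj : Function.Injective F) :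
    ∃ C : ℝ, 0 ≤ C ∧ ∀ w : ℕ, 3 ≤ w → |∑ p ∈ pz w, (rho (∏ i, F i) p : ℝ) / p - k * Real.log (Real.log w)| ≤ C := by
  classical
  have h1 := fun i => mertens_rho (F i) (hF i) (hd i)
  choose C hC0 hC using h1
  obtain ⟨B, hB⟩ := rho_prod_eq F hF hd hl hinj
  set K : ℝ := ∑ p ∈ pz B, ∑ i, (rho (F i) p : ℝ) / p with hK
  have hK0 : 0 ≤ K := sum_nonneg fun p _ => sum_nonneg fun i _ => by positivity
  refine ⟨∑ i, C i + K, add_nonneg (sum_nonneg fun i _ => hC0 i) hK0, fun w hw => ?_⟩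
  have hw3 : (3 : ℝ) ≤ w := by exact_mod_cast hw
  have e1 : ∀ i, Sg (rho (F i)) (w : ℝ) = ∑ p ∈ pz w, (rho (F i) p : ℝ) / p := by
    intro i
    unfold Sg PR pz
    rw [Nat.floor_natCast]
  have h2 : |∑ i, (∑ p ∈ pz w, (rho (F i) p : ℝ) / p - Real.log (Real.log w))| ≤ ∑ i, C i := by
    refine (abs_sum_le_sum_abs _ _).trans (sum_le_sum fun i _ => ?_)
    have := hC i w hw3
    rwa [e1] at this
  rw [sum_sub_distrib, sum_const, card_univ, Fintype.card_fin, nsmul_eq_mul, sum_comm] at h2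
  have h3 : |∑ p ∈ pz w, ((rho (∏ i, F i) p : ℝ) / p - ∑ i, (rho (F i) p : ℝ) / p)| ≤ K := by
    refine (abs_sum_le_sum_abs _ _).trans ?_
    have h4 : ∀ p ∈ pz w, |(rho (∏ i, F i) p : ℝ) / p - ∑ i, (rho (F i) p : ℝ) / p| ≤
        if p ≤ B then ∑ i, (rho (F i) p : ℝ) / p else 0 := by
      intro p hp
      have hpp := (mem_pz.1 hp).2
      split_ifs with h
      · have h5 : (rho (∏ i, F i) p : ℝ) ≤ ∑ i, (rho (F i) p : ℝ) := by exact_mod_cast rho_prod_le F p hpp
        have h6 : (rho (∏ i, F i) p : ℝ) / p ≤ ∑ i, (rho (F i) p : ℝ) / p := by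
          rw [← sum_div]
          exact div_le_div_of_nonneg_right h5 (Nat.cast_nonneg p)
        rw [abs_sub_comm, abs_of_nonneg (by linarith)]
        have : (0 : ℝ) ≤ (rho (∏ i, F i) p : ℝ) / p := by positivity
        linarith
      · rw [hB p hpp (not_le.1 h), ← sum_div]
        push_cast
        simp
    refine (sum_le_sum h4).trans ?_
    rw [← sum_filter, hK]
    apply sum_le_sum_of_subset_of_nonneg
    · intro p hp
      rw [mem_filter, mem_pz] at hp
      exact mem_pz.2 ⟨hp.2, hp.1.2⟩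
    · intro p _ _
      exact sum_nonneg fun i _ => by positivity
  rw [sum_sub_distrib] at h3
  have e2 : ∑ p ∈ pz w, (rho (∏ i, F i) p : ℝ) / p - k * Real.log (Real.log w) =
      (∑ p ∈ pz w, ∑ i, (rho (F i) p : ℝ) / p - k * Real.log (Real.log w)) +
      (∑ p ∈ pz w, (rho (∏ i, F i) p : ℝ) / p - ∑ p ∈ pz w, ∑ i, (rho (F i) p : ℝ) / p) := by ring
  rw [e2]
  exact (abs_add_le _ _).trans (add_le_add h2 h3)

end Pool.Agent.U746.RR
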