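import Pool.Agent.U746.RR.Rough2

/-! The arguments at which a polynomial has no small prime factors form an upper regular set. -/

set_option autoImplicit false

namespace Pool.Agent.U746.RR
open Finset Polynomial Filter
open Pool.Agent.H373R2.T7 (pz Vz mem_pz ev_L' ev_log')
open Pool.Agent.H474R2.PG (rho rho_le)
open Pool.Agent.U746.AS (PP mem_PP cntS cntSq)
open Pool.Agent.U746.AP (Reg)

lemma cntSq_one (S : Set ℕ) (x : ℕ) : cntSq S 1 0 x = cntS S x := by
  classical
  unfold cntSq cntS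
  congr 1
  apply filter_congr
  intro n _
  constructor
  · exact fun h => h.1
  · exact fun h => ⟨h, Nat.modEq_one⟩

/-- **the set of the arguments with values free of small prime factors is upper regular** -/
theorem rough_reg {P : ℤ[X]} {g κ p0 : ℕ} {C : ℝ} (h : Dat P g κ p0 C) : ∃ m0 : ℕ, 1 ≤ m0 ∧ ∃ M : ℝ, 1 ≤ M ∧ ∀ m : ℕ, m0 ≤ m →
    Reg (TT P p0 m) (2 * g + 1) M ∧ ∃ K : ℝ, 0 < K ∧ ∃ x0 : ℕ, ∀ x : ℕ, x0 ≤ x → (cntS (TT P p0 m) x : ℝ) ≤ K * (x / Real.log x ^ g) := by
  obtain ⟨ma, hma1, hma⟩ := h.count_low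
  obtain ⟨mb, hmb1, hmb⟩ := h.count_upp
  set R : ℝ := Real.exp (2 * (g * Real.log 4 + 2 * C)) with hR
  have hR1 : 1 ≤ R := by
    rw [hR]
    apply Real.one_le_exp
    have := h.C0
    have := Real.log_pos (show (1 : ℝ) < 4 by norm_num)
    positivity
  refine ⟨max ma mb, hma1.trans (le_max_left _ _), 6 * R + 1, by linarith, fun m hm => ?_⟩
  have hm1 : 1 ≤ m := (hma1.trans (le_max_left _ _)).trans hm
  obtain ⟨ya, hya⟩ := hma m ((le_max_left _ _).trans hm)
  obtain ⟨yb, hyb⟩ := hmb m ((le_max_right _ _).trans hm)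
  -- the choice of the limits
  set Y : ℕ := max (max ya yb) (max p0 3) with hY
  have hroots : ∀ x : ℕ, (Y + 1) ^ (2 * m) ≤ x → ∃ y y1 : ℕ, Y ≤ y1 ∧ y1 ≤ y ∧ y ≤ (y1 + 1) ^ 2 ∧ y ^ m ≤ x ∧ x < (y + 1) ^ m ∧
      y1 ^ (2 * m) ≤ x ∧ x < (y1 + 1) ^ (2 * m) := by
    intro x hx
    obtain ⟨y, hy1, hy2⟩ := root_ex m x hm1
    obtain ⟨z, hz1, hz2⟩ := root_ex (2 * m) x (by omega)
    have h1 : Y + 1 < z + 1 := lt_of_pow_lt_pow_left₀ (2 * m) (by omega) (lt_of_le_of_lt hx hz2)
    have hz0 : 1 ≤ z := by have : 3 ≤ Y := (le_max_right _ _).trans (le_max_right _ _); omega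
    refine ⟨y, z, by omega, ?_, ?_, hy1, hy2, hz1, hz2⟩
    · have h2 : z ^ m < (y + 1) ^ m := by
        refine lt_of_le_of_lt ?_ hy2
        refine le_trans ?_ hz1
        exact Nat.pow_le_pow_right hz0 (by omega)
      have := lt_of_pow_lt_pow_left₀ m (by omega) h2
      omega
    · have h2 : y ^ m < ((z + 1) ^ 2) ^ m := by
        rw [← pow_mul]
        exact lt_of_le_of_lt hy1 hz2
      exact (lt_of_pow_lt_pow_left₀ m (by omega) h2).le
  -- the size from below
  have hlow : ∃ x0 : ℕ, ∀ x : ℕ, x0 ≤ x → (x : ℝ) ≤ cntS (TT P p0 m) x * Real.log x ^ (2 * g + 1) := by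
    obtain ⟨x1, h1⟩ := ev_L' (2 * Real.exp (2 * C))
    refine ⟨max x1 ((Y + 1) ^ (2 * m)), fun x hx => ?_⟩
    obtain ⟨y, y1, c1, c2, c3, c4, c5, c6, c7⟩ := hroots x ((le_max_right _ _).trans hx)
    have hY3 : 3 ≤ Y := (le_max_right _ _).trans (le_max_right _ _)
    have hy3 : 3 ≤ y := by omega
    have hya' : ya ≤ y := (((le_max_left _ _).trans (le_max_left _ _)).trans c1).trans c2
    have k1 := hya x y hya' c4 c5
    have k2 := h.low y hy3
    have k3 := h1 x ((le_max_left _ _).trans hx)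
    have hyx : y ≤ x := (Nat.le_self_pow (by omega) y).trans c4
    have hL3 := loglog_pos hy3
    have hLx : Real.log y ≤ Real.log x := Real.log_le_log (by exact_mod_cast (by omega : 0 < y)) (by exact_mod_cast hyx)
    have hL0 : 0 < Real.log x := by linarith
    have k4 : Real.exp (-(2 * C)) / Real.log x ^ (2 * g) ≤ VP P p0 y := by
      refine le_trans ?_ k2
      apply div_le_div_of_nonneg_left (Real.exp_pos _).le (by positivity)
      exact pow_le_pow_left₀ (by linarith) hLx _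
    have k5 : (x : ℝ) * (Real.exp (-(2 * C)) / Real.log x ^ (2 * g)) ≤ 2 * cntS (TT P p0 m) x :=
      (mul_le_mul_of_nonneg_left k4 (Nat.cast_nonneg x)).trans k1
    have e1 : Real.exp (2 * C) * Real.exp (-(2 * C)) = 1 := by rw [← Real.exp_add]; simp
    have k6 : (x : ℝ) = ((x : ℝ) * (Real.exp (-(2 * C)) / Real.log x ^ (2 * g))) * (Real.exp (2 * C) * Real.log x ^ (2 * g)) := by
      have : Real.log x ^ (2 * g) ≠ 0 := by positivity
      have e2 : ((x : ℝ) * (Real.exp (-(2 * C)) / Real.log x ^ (2 * g))) * (Real.exp (2 * C) * Real.log x ^ (2 * g)) =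
          x * (Real.exp (2 * C) * Real.exp (-(2 * C))) := by field_simp
      rw [e2, e1, mul_one]
    have k7 : (x : ℝ) ≤ (2 * cntS (TT P p0 m) x) * (Real.exp (2 * C) * Real.log x ^ (2 * g)) := by
      have := mul_le_mul_of_nonneg_right k5 (show 0 ≤ Real.exp (2 * C) * Real.log x ^ (2 * g) by positivity)
      linarith
    refine k7.trans ?_
    have e2 : (2 * (cntS (TT P p0 m) x : ℝ)) * (Real.exp (2 * C) * Real.log x ^ (2 * g)) =
        cntS (TT P p0 m) x * ((2 * Real.exp (2 * C)) * Real.log x ^ (2 * g)) := by ring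
    rw [e2, pow_succ' (Real.log x) (2 * g)]
    exact mul_le_mul_of_nonneg_left (mul_le_mul_of_nonneg_right k3 (by positivity)) (Nat.cast_nonneg _)
  obtain ⟨xl, hxl⟩ := hlow
  refine ⟨fun D => ?_, ?_⟩
  · -- regularity
    obtain ⟨x1, h1⟩ := ev_log' (2 * g + 1 + D) 1
    obtain ⟨x2, h2⟩ := ev_log' D 1
    refine ⟨max (max x1 x2) (max (max xl 3) ((Y + 1) ^ (2 * m))), fun x hx => ?_⟩
    have b1 : x1 ≤ x := ((le_max_left _ _).trans (le_max_left _ _)).trans hx
    have b2 : x2 ≤ x := ((le_max_right _ _).trans (le_max_left _ _)).trans hx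
    have b3 : xl ≤ x := (((le_max_left _ _).trans (le_max_left _ _)).trans (le_max_right _ _)).trans hx
    have b4 : 3 ≤ x := (((le_max_right _ _).trans (le_max_left _ _)).trans (le_max_right _ _)).trans hx
    have b5 : (Y + 1) ^ (2 * m) ≤ x := ((le_max_right _ _).trans (le_max_right _ _)).trans hx
    refine ⟨hxl x b3, fun t ht htD r => ?_⟩
    obtain ⟨y, y1, c1, c2, c3, c4, c5, c6, c7⟩ := hroots x b5
    have hY3 : 3 ≤ Y := (le_max_right _ _).trans (le_max_right _ _)
    have hx0 : (0 : ℝ) < x := by exact_mod_cast (by omega : 0 < x)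
    have hL0 : 0 < Real.log x := Real.log_pos (by exact_mod_cast (by omega : 1 < x))
    have hsx : √(x : ℝ) * √(x : ℝ) = x := Real.mul_self_sqrt hx0.le
    have htx : (∏ p ∈ t, p) ^ 2 ≤ x := by
      have k1 := h2 x b2
      rw [one_mul] at k1
      have k2 : (∏ p ∈ t, (p : ℝ)) ≤ √x := htD.trans k1
      have k3 : (∏ p ∈ t, (p : ℝ)) ^ 2 ≤ x := by
        have := pow_le_pow_left₀ (prod_nonneg fun p _ => Nat.cast_nonneg p) k2 2
        rwa [Real.sq_sqrt hx0.le] at this
      have k4 : (((∏ p ∈ t, p) ^ 2 : ℕ) : ℝ) ≤ (x : ℝ) := by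
        push_cast
        exact k3
      exact Nat.cast_le.1 k4
    have k1 := hyb x y1 (((le_max_right _ _).trans (le_max_left _ _)).trans c1) c6 t ht htx r
    have k2 := hya x y ((((le_max_left _ _).trans (le_max_left _ _)).trans c1).trans c2) c4 c5
    have k3 := h.ratio y1 y (hY3.trans c1) (((le_max_left _ _).trans (le_max_right _ _)).trans c1) c2 c3
    have hP0 : 0 ≤ ∏ p ∈ t, (2 / (p : ℝ)) := prod_nonneg fun p _ => by positivity
    -- the square root
    have k4 : (Nat.sqrt x : ℝ) ≤ cntS (TT P p0 m) x * ∏ p ∈ t, (2 / (p : ℝ)) := by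
      have k5 := hxl x b3
      have k6 := h1 x b1
      rw [one_mul] at k6
      have k7 : (Nat.sqrt x : ℝ) ≤ √x := Real.nat_sqrt_le_real_sqrt
      have k8 : 1 / Real.log x ^ D ≤ ∏ p ∈ t, (2 / (p : ℝ)) := by
        have k9 : 1 / (∏ p ∈ t, (p : ℝ)) ≤ ∏ p ∈ t, (2 / (p : ℝ)) := by
          rw [one_div, ← prod_inv_distrib]
          apply Finset.prod_le_prod
          · intro p _; positivity
          · intro p hp
            rw [inv_eq_one_div]
            exact div_le_div_of_nonneg_right (by norm_num) (Nat.cast_nonneg p)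
        refine le_trans ?_ k9
        apply div_le_div_of_nonneg_left zero_le_one _ htD
        exact prod_pos fun p hp => by exact_mod_cast (ht p hp).pos
      have k9 : √(x : ℝ) ≤ cntS (TT P p0 m) x * (1 / Real.log x ^ D) := by
        rw [mul_one_div, le_div_iff₀ (by positivity)]
        have k10 : √(x : ℝ) * Real.log x ^ (2 * g + 1 + D) ≤ x := by
          calc √(x : ℝ) * Real.log x ^ (2 * g + 1 + D) ≤ √(x : ℝ) * √(x : ℝ) := mul_le_mul_of_nonneg_left k6 (Real.sqrt_nonneg _)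
            _ = x := hsx
        have k11 : (√(x : ℝ) * Real.log x ^ D) * Real.log x ^ (2 * g + 1) ≤ cntS (TT P p0 m) x * Real.log x ^ (2 * g + 1) := by
          refine le_trans (le_of_eq ?_) (k10.trans k5)
          rw [pow_add]; ring
        exact le_of_mul_le_mul_right k11 (by positivity)
      exact (k7.trans k9).trans (mul_le_mul_of_nonneg_left k8 (Nat.cast_nonneg _))
    have k5 : 3 * (x : ℝ) * VP P p0 y1 ≤ 6 * R * cntS (TT P p0 m) x := by
      have k6 : (x : ℝ) * VP P p0 y1 ≤ x * (R * VP P p0 y) := mul_le_mul_of_nonneg_left k3 hx0.le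
      have k7 : R * (x * VP P p0 y) ≤ R * (2 * cntS (TT P p0 m) x) := mul_le_mul_of_nonneg_left k2 (by linarith)
      nlinarith
    have k6 := mul_le_mul_of_nonneg_right k5 hP0
    linarith
  · -- the size from above
    have hm0 : (0 : ℝ) < 4 * m := by positivity
    set A : ℝ := Real.exp (C + ∑ p ∈ pz p0, (rho P p : ℝ) / p) with hA
    have hA0 : 0 < A := Real.exp_pos _
    refine ⟨1 + 3 * (A * (4 * m) ^ g), by positivity, ?_⟩
    obtain ⟨x1, h1⟩ := ev_log' g 1
    refine ⟨max (max x1 3) ((Y + 1) ^ (2 * m)), fun x hx => ?_⟩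
    have b1 : x1 ≤ x := ((le_max_left _ _).trans (le_max_left _ _)).trans hx
    have b4 : 3 ≤ x := ((le_max_right _ _).trans (le_max_left _ _)).trans hx
    obtain ⟨y, y1, c1, c2, c3, c4, c5, c6, c7⟩ := hroots x ((le_max_right _ _).trans hx)
    have hY3 : 3 ≤ Y := (le_max_right _ _).trans (le_max_right _ _)
    have hy3 : 3 ≤ y1 := hY3.trans c1
    have hx0 : (0 : ℝ) < x := by exact_mod_cast (by omega : 0 < x)
    have hL0 : 0 < Real.log x := Real.log_pos (by exact_mod_cast (by omega : 1 < x))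
    have k1 := hyb x y1 (((le_max_right _ _).trans (le_max_left _ _)).trans c1) c6 ∅ (by simp) (by simp; omega) 0
    rw [prod_empty, prod_empty, cntSq_one, mul_one] at k1
    have k2 := h.upp y1 hy3
    have hL1 := loglog_pos hy3
    have k3 : Real.log x ≤ 4 * m * Real.log y1 := by
      have h2 : (x : ℝ) ≤ (y1 : ℝ) ^ (4 * m) := by
        have h3 : x ≤ y1 ^ (4 * m) := by
          refine c7.le.trans ?_
          have h4 : y1 + 1 ≤ y1 ^ 2 := by nlinarith
          calc (y1 + 1) ^ (2 * m) ≤ (y1 ^ 2) ^ (2 * m) := Nat.pow_le_pow_left h4 _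
            _ = y1 ^ (4 * m) := by rw [← pow_mul]; ring_nf
        exact_mod_cast h3
      have h3 := Real.log_le_log hx0 h2
      rw [Real.log_pow] at h3
      push_cast at h3
      exact h3
    have k4 : VP P p0 y1 ≤ A * (4 * m) ^ g / Real.log x ^ g := by
      refine k2.trans ?_
      rw [div_le_div_iff₀ (by positivity) (by positivity)]
      have h3 : Real.log x ^ g ≤ (4 * m * Real.log y1) ^ g := pow_le_pow_left₀ hL0.le k3 g
      rw [mul_pow] at h3
      calc A * Real.log x ^ g ≤ A * ((4 * m) ^ g * Real.log y1 ^ g) := mul_le_mul_of_nonneg_left h3 hA0.le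
        _ = A * (4 * m) ^ g * Real.log y1 ^ g := by ring
    have k5 : (Nat.sqrt x : ℝ) ≤ x / Real.log x ^ g := by
      have k6 := h1 x b1
      rw [one_mul] at k6
      have k7 : (Nat.sqrt x : ℝ) ≤ √x := Real.nat_sqrt_le_real_sqrt
      refine k7.trans ?_
      rw [le_div_iff₀ (by positivity)]
      calc √(x : ℝ) * Real.log x ^ g ≤ √(x : ℝ) * √(x : ℝ) := mul_le_mul_of_nonneg_left k6 (Real.sqrt_nonneg _)
        _ = x := Real.mul_self_sqrt hx0.le
    have k6 : 3 * (x : ℝ) * VP P p0 y1 ≤ 3 * x * (A * (4 * m) ^ g / Real.log x ^ g) :=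
      mul_le_mul_of_nonneg_left k4 (by positivity)
    calc (cntS (TT P p0 m) x : ℝ) ≤ Nat.sqrt x + 3 * x * VP P p0 y1 := k1
      _ ≤ x / Real.log x ^ g + 3 * x * (A * (4 * m) ^ g / Real.log x ^ g) := add_le_add k5 k6
      _ = (1 + 3 * (A * (4 * m) ^ g)) * (x / Real.log x ^ g) := by ring

/-- the data of a family of distinct irreducible polynomials -/
theorem dat_ex {k : ℕ} (F : Fin k → ℤ[X]) (hF : ∀ i, Irreducible (F i)) (hd : ∀ i, 0 < (F i).natDegree)
    (hl : ∀ i, 0 < (F i).leadingCoeff) (hinj : Function.Injective F) :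
    ∃ (κ p0 : ℕ) (C : ℝ), Dat (∏ i, F i) k κ p0 C := by
  obtain ⟨C, hC0, hC⟩ := mertens_prod F hF hd hl hinj
  have hne : ∏ i, F i ≠ 0 := prod_ne_zero_iff.2 fun i _ => (hF i).ne_zero
  obtain ⟨B, hB⟩ := rho_le (∏ i, F i) hne
  refine ⟨(∏ i, F i).natDegree, max B (2 * (∏ i, F i).natDegree), C, ⟨hC0, hC, fun p hp hpB => ?_, le_max_right _ _⟩⟩
  exact hB p hp (lt_of_le_of_lt (le_max_left _ _) hpB)

end Pool.Agent.U746.RR
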