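import Pool.Agent.U746.RR.Fl
import Pool.Agent.U746.RR.Pol
import Pool.Agent.U746.AP.Reg

/-! The arguments at which a polynomial has no small prime factors form an upper regular set. -/

set_option autoImplicit false

namespace Pool.Agent.U746.RR
open Finset Polynomial Filter
open Pool.Agent.H373R2.T7 (pz Vz mem_pz)
open Pool.Agent.H474R2.PG (rho)
open Pool.Agent.U746.AS (PP mem_PP cntS cntSq)
open Pool.Agent.U746.AP (Reg)

/-- the arguments at which `P` has no prime factor `p > p0` with `p ^ m ≤ n` -/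
def TT (P : ℤ[X]) (p0 m : ℕ) : Set ℕ := {n | ∀ p : ℕ, p.Prime → p0 < p → p ^ m ≤ n → ¬ (p : ℤ) ∣ P.eval (n : ℤ)}

/-- the zeros modulo `p` -/
def Om (P : ℤ[X]) (p : ℕ) : Finset ℕ := (range p).filter (fun a : ℕ => (p : ℤ) ∣ P.eval (a : ℤ))

lemma Om_card (P : ℤ[X]) (p : ℕ) : (Om P p).card = rho P p := rfl

lemma mem_Om (P : ℤ[X]) (p : ℕ) (hp : 0 < p) (n : ℕ) : n % p ∈ Om P p ↔ (p : ℤ) ∣ P.eval (n : ℤ) := by
  unfold Om
  rw [mem_filter, mem_range]
  have h1 : ((n : ℤ) - ((n % p : ℕ) : ℤ)) ∣ P.eval (n : ℤ) - P.eval ((n % p : ℕ) : ℤ) := Polynomial.sub_dvd_eval_sub _ _ _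
  have h2 : (p : ℤ) ∣ (n : ℤ) - ((n % p : ℕ) : ℤ) := by
    push_cast
    exact Int.dvd_self_sub_emod
  have h3 : (p : ℤ) ∣ P.eval (n : ℤ) - P.eval ((n % p : ℕ) : ℤ) := h2.trans h1
  constructor
  · rintro ⟨_, h⟩
    have := dvd_add h3 h
    rwa [sub_add_cancel] at this
  · intro h
    refine ⟨Nat.mod_lt _ hp, ?_⟩
    have := dvd_sub h h3
    rwa [sub_sub_cancel] at this

/-- the sieve product -/
noncomputable def VP (P : ℤ[X]) (p0 y : ℕ) : ℝ := ∏ p ∈ PP p0 y, (1 - (rho P p : ℝ) / p)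

/-- the data -/
structure Dat (P : ℤ[X]) (g κ p0 : ℕ) (C : ℝ) : Prop where
  C0 : 0 ≤ C
  mert : ∀ w : ℕ, 3 ≤ w → |∑ p ∈ pz w, (rho P p : ℝ) / p - g * Real.log (Real.log w)| ≤ C
  le : ∀ p : ℕ, p.Prime → p0 < p → rho P p ≤ κ
  big : 2 * κ ≤ p0

section
variable {P : ℤ[X]} {g κ p0 : ℕ} {C : ℝ}

lemma Dat.half (h : Dat P g κ p0 C) {p : ℕ} (hp : p.Prime) (hp0 : p0 < p) : (rho P p : ℝ) / p ≤ 1 / 2 := by
  have h1 : (rho P p : ℝ) ≤ κ := by exact_mod_cast h.le p hp hp0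
  have h2 : 2 * (κ : ℝ) ≤ p := by exact_mod_cast h.big.trans hp0.le
  have h3 : (0 : ℝ) < p := by exact_mod_cast hp.pos
  rw [div_le_div_iff₀ h3 (by norm_num)]
  linarith

lemma term_nn (P : ℤ[X]) (p : ℕ) : 0 ≤ (rho P p : ℝ) / p := by positivity

lemma inv_exp (t : ℝ) (h0 : 0 ≤ t) (h1 : t ≤ 1 / 2) : Real.exp (-(2 * t)) ≤ 1 - t := by
  have h2 : 0 < 1 - t := by linarith
  have h3 := Real.add_one_le_exp (2 * t)
  rw [Real.exp_neg, inv_le_comm₀ (Real.exp_pos _) h2]
  refine le_trans ?_ h3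
  rw [inv_le_iff_one_le_mul₀ h2]
  nlinarith

lemma Dat.pos (h : Dat P g κ p0 C) (y : ℕ) : 0 < VP P p0 y := by
  unfold VP
  apply prod_pos
  intro p hp
  rw [mem_PP] at hp
  have := h.half hp.1.2 hp.2
  linarith

lemma loglog_pos {w : ℕ} (hw : 3 ≤ w) : 1 < Real.log w := by
  rw [Real.lt_log_iff_exp_lt (by positivity)]
  have := Real.exp_one_lt_d9
  have h3 : (3 : ℝ) ≤ w := by exact_mod_cast hw
  linarith

/-- lower bound -/
lemma Dat.low (h : Dat P g κ p0 C) (y : ℕ) (hy : 3 ≤ y) : Real.exp (-(2 * C)) / Real.log y ^ (2 * g) ≤ VP P p0 y := by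
  have hL := loglog_pos hy
  have h1 : ∏ p ∈ PP p0 y, Real.exp (-(2 * ((rho P p : ℝ) / p))) ≤ VP P p0 y := by
    unfold VP
    apply Finset.prod_le_prod
    · intro p _; exact (Real.exp_pos _).le
    · intro p hp
      rw [mem_PP] at hp
      exact inv_exp _ (term_nn P p) (h.half hp.1.2 hp.2)
  refine le_trans ?_ h1
  rw [← Real.exp_sum, sum_neg_distrib, ← mul_sum]
  have h2 : ∑ p ∈ PP p0 y, (rho P p : ℝ) / p ≤ ∑ p ∈ pz y, (rho P p : ℝ) / p := by
    apply sum_le_sum_of_subset_of_nonneg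
    · intro p hp
      rw [mem_PP] at hp
      exact mem_pz.2 hp.1
    · intro p _ _; exact term_nn P p
  have h3 := (abs_le.1 (h.mert y hy)).2
  have h4 : ∑ p ∈ PP p0 y, (rho P p : ℝ) / p ≤ C + g * Real.log (Real.log y) := by linarith
  have h5 : Real.exp (-(2 * C)) / Real.log y ^ (2 * g) = Real.exp (-(2 * (C + g * Real.log (Real.log y)))) := by
    have e1 : -(2 * (C + g * Real.log (Real.log y))) = -(2 * C) - ((2 * g : ℕ) : ℝ) * Real.log (Real.log y) := by
      push_cast; ring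
    rw [e1, Real.exp_sub, ← Real.log_pow, Real.exp_log (by positivity)]
  rw [h5]
  apply Real.exp_le_exp.2
  linarith

/-- upper bound -/
lemma Dat.upp (h : Dat P g κ p0 C) (y : ℕ) (hy : 3 ≤ y) :
    VP P p0 y ≤ Real.exp (C + ∑ p ∈ pz p0, (rho P p : ℝ) / p) / Real.log y ^ g := by
  have hL := loglog_pos hy
  have h1 : VP P p0 y ≤ ∏ p ∈ PP p0 y, Real.exp (-((rho P p : ℝ) / p)) := by
    unfold VP
    apply Finset.prod_le_prod
    · intro p hp
      rw [mem_PP] at hp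
      have := h.half hp.1.2 hp.2
      linarith
    · intro p _
      have := Real.add_one_le_exp (-((rho P p : ℝ) / p))
      linarith
  refine h1.trans ?_
  rw [← Real.exp_sum, sum_neg_distrib]
  have h2 : ∑ p ∈ pz y, (rho P p : ℝ) / p ≤ ∑ p ∈ PP p0 y, (rho P p : ℝ) / p + ∑ p ∈ pz p0, (rho P p : ℝ) / p := by
    classical
    rw [← sum_filter_add_sum_filter_not (pz y) (fun p => p0 < p)]
    apply add_le_add
    · apply sum_le_sum_of_subset_of_nonneg
      · intro p hp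
        rw [mem_filter, mem_pz] at hp
        exact mem_PP.2 hp
      · intro p _ _; exact term_nn P p
    · apply sum_le_sum_of_subset_of_nonneg
      · intro p hp
        rw [mem_filter, mem_pz] at hp
        exact mem_pz.2 ⟨not_lt.1 hp.2, hp.1.2⟩
      · intro p _ _; exact term_nn P p
  have h3 := (abs_le.1 (h.mert y hy)).1
  have h5 : Real.exp (C + ∑ p ∈ pz p0, (rho P p : ℝ) / p) / Real.log y ^ g =
      Real.exp (C + ∑ p ∈ pz p0, (rho P p : ℝ) / p - g * Real.log (Real.log y)) := by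
    rw [Real.exp_sub, ← Real.log_pow, Real.exp_log (by positivity)]
  rw [h5]
  apply Real.exp_le_exp.2
  linarith

/-- comparison of two limits -/
lemma Dat.ratio (h : Dat P g κ p0 C) (y1 y : ℕ) (h3 : 3 ≤ y1) (hp0 : p0 ≤ y1) (h1 : y1 ≤ y) (h2 : y ≤ (y1 + 1) ^ 2) :
    VP P p0 y1 ≤ Real.exp (2 * (g * Real.log 4 + 2 * C)) * VP P p0 y := by
  have hL1 := loglog_pos h3
  have hL := loglog_pos (h3.trans h1)
  have hsplit : VP P p0 y = VP P p0 y1 * ∏ p ∈ PP y1 y, (1 - (rho P p : ℝ) / p) := by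
    classical
    unfold VP
    have e1 : PP p0 y = PP p0 y1 ∪ PP y1 y := by
      ext p
      rw [mem_union, mem_PP, mem_PP, mem_PP]
      constructor
      · rintro ⟨⟨h4, h5⟩, h6⟩
        by_cases h7 : p ≤ y1
        · exact Or.inl ⟨⟨h7, h5⟩, h6⟩
        · exact Or.inr ⟨⟨h4, h5⟩, not_le.1 h7⟩
      · rintro (⟨⟨h4, h5⟩, h6⟩ | ⟨⟨h4, h5⟩, h6⟩)
        · exact ⟨⟨h4.trans h1, h5⟩, h6⟩
        · exact ⟨⟨h4, h5⟩, lt_of_le_of_lt hp0 h6⟩
    rw [e1, prod_union]
    rw [disjoint_left]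
    intro p hp hp'
    rw [mem_PP] at hp hp'
    have := hp.1.1
    have := hp'.2
    omega
  have h4 : Real.exp (-(2 * (g * Real.log 4 + 2 * C))) ≤ ∏ p ∈ PP y1 y, (1 - (rho P p : ℝ) / p) := by
    have h5 : ∏ p ∈ PP y1 y, Real.exp (-(2 * ((rho P p : ℝ) / p))) ≤ ∏ p ∈ PP y1 y, (1 - (rho P p : ℝ) / p) := by
      apply Finset.prod_le_prod
      · intro p _; exact (Real.exp_pos _).le
      · intro p hp
        rw [mem_PP] at hp
        exact inv_exp _ (term_nn P p) (h.half hp.1.2 (lt_of_le_of_lt hp0 hp.2))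
    refine le_trans ?_ h5
    rw [← Real.exp_sum, sum_neg_distrib, ← mul_sum]
    apply Real.exp_le_exp.2
    have h6 : ∑ p ∈ pz y1, (rho P p : ℝ) / p + ∑ p ∈ PP y1 y, (rho P p : ℝ) / p ≤ ∑ p ∈ pz y, (rho P p : ℝ) / p := by
      classical
      rw [← sum_union]
      · apply sum_le_sum_of_subset_of_nonneg
        · intro p hp
          rw [mem_union, mem_pz, mem_PP] at hp
          rcases hp with hp | hp
          · exact mem_pz.2 ⟨hp.1.trans h1, hp.2⟩
          · exact mem_pz.2 hp.1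
        · intro p _ _; exact term_nn P p
      · rw [disjoint_left]
        intro p hp hp'
        rw [mem_pz] at hp
        rw [mem_PP] at hp'
        have := hp.1
        have := hp'.2
        omega
    have h7 := (abs_le.1 (h.mert y (h3.trans h1))).2
    have h8 := (abs_le.1 (h.mert y1 h3)).1
    have h9 : Real.log (Real.log y) ≤ Real.log 4 + Real.log (Real.log y1) := by
      rw [← Real.log_mul (by norm_num) (by linarith)]
      apply Real.log_le_log (by linarith)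
      have h10 : (y : ℝ) ≤ (y1 : ℝ) ^ 4 := by
        have h11 : y ≤ y1 ^ 4 := by
          refine h2.trans ?_
          have h12 : y1 + 1 ≤ y1 ^ 2 := by nlinarith
          calc (y1 + 1) ^ 2 ≤ (y1 ^ 2) ^ 2 := Nat.pow_le_pow_left h12 2
            _ = y1 ^ 4 := by ring
        exact_mod_cast h11
      have h13 := Real.log_le_log (by exact_mod_cast (by omega : 0 < y)) h10
      rw [Real.log_pow] at h13
      push_cast at h13
      exact h13
    have h10 : (g : ℝ) * Real.log (Real.log y) ≤ g * (Real.log 4 + Real.log (Real.log y1)) :=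
      mul_le_mul_of_nonneg_left h9 (Nat.cast_nonneg _)
    nlinarith
  have h5 := h.pos y1
  rw [hsplit]
  have h6 : Real.exp (2 * (g * Real.log 4 + 2 * C)) * Real.exp (-(2 * (g * Real.log 4 + 2 * C))) = 1 := by
    rw [← Real.exp_add]; simp
  calc VP P p0 y1 = (Real.exp (2 * (g * Real.log 4 + 2 * C)) * Real.exp (-(2 * (g * Real.log 4 + 2 * C)))) * VP P p0 y1 := by
        rw [h6, one_mul]
    _ ≤ (Real.exp (2 * (g * Real.log 4 + 2 * C)) * ∏ p ∈ PP y1 y, (1 - (rho P p : ℝ) / p)) * VP P p0 y1 := by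
        gcongr
    _ = _ := by ring

end

lemma root_ex (m x : ℕ) (hm : 1 ≤ m) : ∃ y : ℕ, y ^ m ≤ x ∧ x < (y + 1) ^ m := by
  refine ⟨Nat.findGreatest (fun y => y ^ m ≤ x) x, ?_, ?_⟩
  · exact Nat.findGreatest_spec (P := fun y => y ^ m ≤ x) (Nat.zero_le x) (by simp [Nat.zero_pow hm])
  · by_contra h
    have h1 : Nat.findGreatest (fun y => y ^ m ≤ x) x + 1 ≤ x := by
      have := Nat.le_self_pow (show m ≠ 0 by omega) (Nat.findGreatest (fun y => y ^ m ≤ x) x + 1)
      omega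
    have h2 := Nat.le_findGreatest (P := fun y => y ^ m ≤ x) h1 (not_lt.1 h)
    omega

end Pool.Agent.U746.RR
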