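import Pool.Agent.U746.RR.Rough

/-! The arguments at which a polynomial has no small prime factors form an upper regular set: the counts. -/

set_option autoImplicit false

namespace Pool.Agent.U746.RR
open Finset Polynomial Filter
open Pool.Agent.H373R2.T7 (pz Vz mem_pz)
open Pool.Agent.H474R2.PG (rho)
open Pool.Agent.U746.AS (PP mem_PP cntS cntSq)
open Pool.Agent.U746.AP (Reg)

section
variable {P : ℤ[X]} {g κ p0 : ℕ} {C : ℝ}

lemma sift_iff (P : ℤ[X]) (Q : Finset ℕ) (hQ : ∀ p ∈ Q, p.Prime) (n : ℕ) :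
    (∀ p ∈ Q, n % p ∉ Om P p) ↔ ∀ p ∈ Q, ¬ (p : ℤ) ∣ P.eval (n : ℤ) := by
  constructor
  · intro h p hp hd
    exact h p hp ((mem_Om P p (hQ p hp).pos n).2 hd)
  · intro h p hp hd
    exact h p hp ((mem_Om P p (hQ p hp).pos n).1 hd)

open Classical in
/-- **lower bound** for the number of the elements -/
lemma Dat.count_low (h : Dat P g κ p0 C) : ∃ m0 : ℕ, 1 ≤ m0 ∧ ∀ m : ℕ, m0 ≤ m → ∃ y0 : ℕ, ∀ x y : ℕ, y0 ≤ y → y ^ m ≤ x →
    x < (y + 1) ^ m → (x : ℝ) * VP P p0 y ≤ 2 * cntS (TT P p0 m) x := by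
  obtain ⟨K, y0, hK, hy0, hfl⟩ := fl1 κ (show (0 : ℝ) < 1 / 2 by norm_num)
  refine ⟨K, hK, fun m hm => ⟨max y0 1, fun x y hy hyx hxy => ?_⟩⟩
  have hy1 : 1 ≤ y := (le_max_right _ _).trans hy
  have h1 := hfl y ((le_max_left _ _).trans hy) x ((Nat.pow_le_pow_right hy1 hm).trans hyx) (PP p0 y)
    (fun p hp => by rw [mem_PP] at hp; exact ⟨hp.1.2, hp.1.1⟩) (Om P)
    (fun p hp => by
      rw [mem_PP] at hp
      exact ⟨filter_subset _ _, by rw [Om_card]; exact h.le p hp.1.2 hp.2⟩) 1 le_rfl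
    (fun p hp hd => by
      rw [mem_PP] at hp
      have := hp.1.2.one_lt
      have := Nat.le_of_dvd one_pos hd
      omega) 0
  have h2 : (((Icc 1 (1 * x)).filter (fun n : ℕ => n ≡ 0 [MOD 1] ∧ ∀ p ∈ PP p0 y, n % p ∉ Om P p)).card : ℝ) ≤
      cntS (TT P p0 m) x := by
    unfold cntS
    apply Nat.cast_le.2
    apply card_le_card
    intro n hn
    rw [mem_filter, one_mul, sift_iff P _ (fun p hp => (mem_PP.1 hp).1.2)] at hn
    rw [mem_filter]
    refine ⟨hn.1, fun p hp hp0 hpn => hn.2.2 p (mem_PP.2 ⟨⟨?_, hp⟩, hp0⟩)⟩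
    have h3 : p ^ m < (y + 1) ^ m := lt_of_le_of_lt (hpn.trans (mem_Icc.1 hn.1).2) hxy
    have := lt_of_pow_lt_pow_left₀ m (by omega) h3
    omega
  have h3 : ∏ p ∈ PP p0 y, (1 - ((Om P p).card : ℝ) / p) = VP P p0 y := rfl
  rw [h3] at h1
  have h4 := (abs_le.1 h1).1
  linarith

open Classical in
/-- **upper bound** in a residue class -/
lemma Dat.count_upp (h : Dat P g κ p0 C) : ∃ m0 : ℕ, 1 ≤ m0 ∧ ∀ m : ℕ, m0 ≤ m → ∃ y0 : ℕ, ∀ x y : ℕ, y0 ≤ y →
    y ^ (2 * m) ≤ x → ∀ t : Finset ℕ, (∀ p ∈ t, p.Prime) → (∏ p ∈ t, p) ^ 2 ≤ x → ∀ r : ℕ,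
    (cntSq (TT P p0 m) (∏ p ∈ t, p) r x : ℝ) ≤ Nat.sqrt x + 3 * x * VP P p0 y * ∏ p ∈ t, (2 / (p : ℝ)) := by
  obtain ⟨K, y0, hK, hy0, hfl⟩ := fl1 κ (show (0 : ℝ) < 1 / 2 by norm_num)
  refine ⟨K, hK, fun m hm => ⟨max y0 1, fun x y hy hyx t ht htx r => ?_⟩⟩
  have hy1 : 1 ≤ y := (le_max_right _ _).trans hy
  set d : ℕ := ∏ p ∈ t, p with hd
  have hd1 : 1 ≤ d := prod_pos fun p hp => (ht p hp).pos
  set H : ℕ := x / d + 1 with hH
  have hdH : x ≤ d * H := by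
    rw [hH]
    have := Nat.lt_mul_div_succ x (show 0 < d by omega)
    omega
  have hymd : y ^ m * d ≤ x := by
    have h1 : (y ^ m * d) ^ 2 ≤ x ^ 2 := by
      calc (y ^ m * d) ^ 2 = y ^ (2 * m) * d ^ 2 := by ring
        _ ≤ x * x := Nat.mul_le_mul hyx htx
        _ = x ^ 2 := by ring
    exact le_of_pow_le_pow_left₀ two_ne_zero (Nat.zero_le _) h1
  have hyH : y ^ K ≤ H := by
    refine (Nat.pow_le_pow_right hy1 hm).trans ?_
    have : y ^ m ≤ x / d := (Nat.le_div_iff_mul_le (by omega)).2 hymd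
    omega
  set Q : Finset ℕ := (PP p0 y).filter (fun p => p ∉ t) with hQ
  have h1 := hfl y ((le_max_left _ _).trans hy) H hyH Q
    (fun p hp => by rw [hQ, mem_filter, mem_PP] at hp; exact ⟨hp.1.1.2, hp.1.1.1⟩) (Om P)
    (fun p hp => by
      rw [hQ, mem_filter, mem_PP] at hp
      exact ⟨filter_subset _ _, by rw [Om_card]; exact h.le p hp.1.1.2 hp.1.2⟩) d hd1
    (fun p hp hpd => by
      rw [hQ, mem_filter, mem_PP] at hp
      have h2 : Prime p := hp.1.1.2.prime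
      rw [hd, h2.dvd_finset_prod_iff] at hpd
      obtain ⟨q, hq, hpq⟩ := hpd
      have := (Nat.prime_dvd_prime_iff_eq hp.1.1.2 (ht q hq)).1 hpq
      subst this
      exact hp.2 hq) r
  have h3 : ∏ p ∈ Q, (1 - ((Om P p).card : ℝ) / p) = ∏ p ∈ Q, (1 - (rho P p : ℝ) / p) := rfl
  rw [h3] at h1
  -- the sieve product without the primes of `t`
  have h4 : ∏ p ∈ Q, (1 - (rho P p : ℝ) / p) ≤ VP P p0 y * 2 ^ t.card := by
    have e1 : VP P p0 y = (∏ p ∈ Q, (1 - (rho P p : ℝ) / p)) * ∏ p ∈ (PP p0 y).filter (fun p => ¬ p ∉ t), (1 - (rho P p : ℝ) / p) := by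
      unfold VP
      rw [hQ, prod_filter_mul_prod_filter_not]
    have h5 : (1 / 2 : ℝ) ^ t.card ≤ ∏ p ∈ (PP p0 y).filter (fun p => ¬ p ∉ t), (1 - (rho P p : ℝ) / p) := by
      have h6 : (1 / 2 : ℝ) ^ t.card ≤ (1 / 2 : ℝ) ^ ((PP p0 y).filter (fun p => ¬ p ∉ t)).card := by
        apply pow_le_pow_of_le_one (by norm_num) (by norm_num)
        apply card_le_card
        intro p hp
        rw [mem_filter] at hp
        exact not_not.1 hp.2
      refine h6.trans ?_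
      rw [← prod_const]
      apply Finset.prod_le_prod
      · intro p _; norm_num
      · intro p hp
        rw [mem_filter, mem_PP] at hp
        have := h.half hp.1.1.2 hp.1.2
        linarith
    have h6 : 0 ≤ ∏ p ∈ Q, (1 - (rho P p : ℝ) / p) := by
      apply prod_nonneg
      intro p hp
      rw [hQ, mem_filter, mem_PP] at hp
      have := h.half hp.1.1.2 hp.1.2
      linarith
    rw [e1]
    calc ∏ p ∈ Q, (1 - (rho P p : ℝ) / p) = (∏ p ∈ Q, (1 - (rho P p : ℝ) / p)) * ((1 / 2 : ℝ) ^ t.card * 2 ^ t.card) := by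
          rw [← mul_pow]; norm_num
      _ ≤ (∏ p ∈ Q, (1 - (rho P p : ℝ) / p)) *
          ((∏ p ∈ (PP p0 y).filter (fun p => ¬ p ∉ t), (1 - (rho P p : ℝ) / p)) * 2 ^ t.card) := by
          apply mul_le_mul_of_nonneg_left _ h6
          exact mul_le_mul_of_nonneg_right h5 (by positivity)
      _ = _ := by ring
  -- the elements of the class
  have h5 : cntSq (TT P p0 m) d r x ≤ Nat.sqrt x +
      ((Icc 1 (d * H)).filter (fun n : ℕ => n ≡ r [MOD d] ∧ ∀ p ∈ Q, n % p ∉ Om P p)).card := by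
    unfold cntSq
    have h6 : (Icc 1 x).filter (fun n : ℕ => n ∈ TT P p0 m ∧ n ≡ r [MOD d]) ⊆ Icc 1 (Nat.sqrt x) ∪
        (Icc 1 (d * H)).filter (fun n : ℕ => n ≡ r [MOD d] ∧ ∀ p ∈ Q, n % p ∉ Om P p) := by
      intro n hn
      rw [mem_filter, mem_Icc] at hn
      obtain ⟨⟨hn1, hnx⟩, hnT, hnr⟩ := hn
      rw [mem_union]
      by_cases hs : n ≤ Nat.sqrt x
      · exact Or.inl (mem_Icc.2 ⟨hn1, hs⟩)
      · right
        rw [mem_filter, mem_Icc, sift_iff P _ (fun p hp => by rw [hQ, mem_filter, mem_PP] at hp; exact hp.1.1.2)]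
        refine ⟨⟨hn1, hnx.trans hdH⟩, hnr, fun p hp => ?_⟩
        rw [hQ, mem_filter, mem_PP] at hp
        apply hnT p hp.1.1.2 hp.1.2
        have h7 : (p ^ m) ^ 2 ≤ x := by
          calc (p ^ m) ^ 2 = p ^ (2 * m) := by ring
            _ ≤ y ^ (2 * m) := Nat.pow_le_pow_left hp.1.1.1 _
            _ ≤ x := hyx
        have h8 : p ^ m ≤ Nat.sqrt x := by rw [Nat.le_sqrt']; exact h7
        omega
    refine (card_le_card h6).trans ((card_union_le _ _).trans ?_)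
    rw [Nat.card_Icc, Nat.add_sub_cancel]
  have h6 := (abs_le.1 h1).2
  have hd0 : (0 : ℝ) < d := by exact_mod_cast hd1
  have hHr : (H : ℝ) ≤ 2 * (x / d) := by
    have h7 : ((x / d : ℕ) : ℝ) ≤ x / d := Nat.cast_div_le
    have h8 : (1 : ℝ) ≤ x / d := by
      rw [le_div_iff₀ hd0, one_mul]
      have h9 : d ≤ x := (Nat.le_self_pow two_ne_zero d).trans htx
      exact_mod_cast h9
    rw [hH]; push_cast
    linarith
  have hprod : ∏ p ∈ t, (2 / (p : ℝ)) = 2 ^ t.card / d := by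
    rw [prod_div_distrib, prod_const, hd]
    push_cast
    rfl
  have hV := (h.pos y).le
  calc (cntSq (TT P p0 m) d r x : ℝ) ≤ Nat.sqrt x +
      (((Icc 1 (d * H)).filter (fun n : ℕ => n ≡ r [MOD d] ∧ ∀ p ∈ Q, n % p ∉ Om P p)).card : ℝ) := by exact_mod_cast h5
    _ ≤ Nat.sqrt x + 3 / 2 * (H * ∏ p ∈ Q, (1 - (rho P p : ℝ) / p)) := by linarith
    _ ≤ Nat.sqrt x + 3 / 2 * ((2 * (x / d)) * (VP P p0 y * 2 ^ t.card)) := by
        have h7 : (H : ℝ) * ∏ p ∈ Q, (1 - (rho P p : ℝ) / p) ≤ (2 * (x / d)) * (VP P p0 y * 2 ^ t.card) := by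
          calc (H : ℝ) * ∏ p ∈ Q, (1 - (rho P p : ℝ) / p) ≤ H * (VP P p0 y * 2 ^ t.card) :=
                mul_le_mul_of_nonneg_left h4 (Nat.cast_nonneg _)
            _ ≤ _ := mul_le_mul_of_nonneg_right hHr (by positivity)
        linarith
    _ = Nat.sqrt x + 3 * x * VP P p0 y * ∏ p ∈ t, (2 / (p : ℝ)) := by rw [hprod]; ring

end

end Pool.Agent.U746.RR
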